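import Pool.Agent.Helper55.GI.Spec

/-!
# A split graph with four eigenvalues for every graph
-/

set_option autoImplicit false
set_option linter.unusedSectionVars false
set_option linter.unusedSimpArgs false

namespace Pool.Agent.Helper55.GI

open Matrix

/-- numbers of blocks with one point -/
def sA (n : ℕ) : ℕ := 2 * n ^ 2 + 13 * n + 7
def sB (n : ℕ) : ℕ := 2 * n ^ 2 + 11 * n + 11
def sC (n : ℕ) : ℕ := 2 * n ^ 2 + 9 * n + 12
/-- number of blocks that contain two given points -/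
def sD (n : ℕ) : ℕ := 2 * n + 4

/-- Points: the vertices and two more. -/
abbrev Pt (V : Type) : Type := V ⊕ Fin 2

/-- Blocks. -/
abbrev Bk (V : Type) (n : ℕ) : Type :=
  (V × V × Fin (4 + n)) ⊕ (V × Fin (8 + sA n)) ⊕ Fin (2 + sD n + sB n + sC n)

/-- The pattern of the edge gadget. -/
def pat (a : Prop) (t : ℕ) : Prop := ((t = 0 ∨ t = 3) ∧ a) ∨ ((t = 1 ∨ t = 2) ∧ ¬ a)

/-- The incidence relation. -/
def mem {V : Type} {n : ℕ} (G : SimpleGraph V) : Pt V → Bk V n → Prop
  | .inl x, .inl (u, w, t) =>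
      if t.val = 1 then x = u else if t.val = 2 then x = w else if t.val = 3 then False
        else (x = u ∨ x = w)
  | .inl x, .inr (.inl (u, _)) => x = u
  | .inl _, .inr (.inr t) => t.val < 2
  | .inr i, .inl (u, w, t) => if i = 0 then pat (G.Adj u w) t.val else pat (¬ G.Adj u w) t.val
  | .inr i, .inr (.inl (_, t)) => if i = 0 then t.val < 3 else 3 ≤ t.val ∧ t.val < 8
  | .inr i, .inr (.inr t) => if i = 0 then t.val ≠ 1 ∧ t.val < 2 + sD n + sB n
      else (2 ≤ t.val ∧ t.val < 2 + sD n) ∨ 2 + sD n + sB n ≤ t.val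

open Classical in
/-- The incidence matrix. -/
noncomputable def inc {V : Type} {n : ℕ} (G : SimpleGraph V) : Matrix (Pt V) (Bk V n) ℝ :=
  Matrix.of fun p b => if mem G p b then 1 else 0

/-- The new graph. -/
def gam {V : Type} (n : ℕ) (G : SimpleGraph V) : SimpleGraph (Pt V ⊕ Bk V n) where
  Adj
    | .inl p, .inl q => p ≠ q
    | .inl p, .inr b => mem G p b
    | .inr b, .inl p => mem G p b
    | .inr _, .inr _ => False
  symm := ⟨by
    rintro (p | b) (q | c) h
    · exact Ne.symm h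
    · exact h
    · exact h
    · exact h⟩
  loopless := ⟨by
    rintro (p | b) h
    · exact h rfl
    · exact h⟩

section Sums
open Classical

variable {V : Type}

/-- the indicator of `x ∈ {u, w}` -/
noncomputable def ii (x u w : V) : ℝ := if x = u ∨ x = w then 1 else 0

theorem ii_eq (x u w : V) : ii x u w = (if x = u then 1 else 0) + (if x = w then 1 else 0) -
    (if x = u then 1 else 0) * (if x = w then 1 else 0) := by
  unfold ii
  by_cases h1 : x = u <;> by_cases h2 : x = w <;> simp [h1, h2]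

variable [Fintype V]

theorem sum_ii (x : V) (g : V → V → ℝ) : ∑ u, ∑ w, ii x u w * g u w =
    ∑ w, g x w + ∑ u, g u x - g x x := by
  simp only [ii_eq, sub_mul, add_mul, Finset.sum_sub_distrib, Finset.sum_add_distrib]
  congr 1
  · congr 1
    · simp [ite_mul]
    · simp [ite_mul]
  · simp [ite_mul]

theorem sum_ii_ii (x y : V) : ∑ u, ∑ w, ii x u w * ii y u w =
    if x = y then 2 * (Fintype.card V : ℝ) - 1 else 2 := by
  rw [sum_ii]
  by_cases h : x = y
  · subst h
    rw [if_pos rfl]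
    have h1 : ∀ w, ii x x w = 1 := fun w => by simp [ii]
    have h2 : ∀ w, ii x w x = 1 := fun w => by simp [ii]
    simp only [h1, h2]
    simp
    ring
  · rw [if_neg h]
    have h1 : ∀ w, ii y x w = if y = w then 1 else 0 := fun w => by
      simp [ii, Ne.symm h]
    have h2 : ∀ w, ii y w x = if y = w then 1 else 0 := fun w => by
      simp [ii, Ne.symm h]
    simp only [h1, h2]
    simp [Ne.symm h]
    norm_num

theorem sum_main {n : ℕ} (f : V × V × Fin (4 + n) → ℝ) : ∑ b, f b =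
    ∑ u, ∑ w, f (u, w, Fin.castAdd n 0) + ∑ u, ∑ w, f (u, w, Fin.castAdd n 1) +
    ∑ u, ∑ w, f (u, w, Fin.castAdd n 2) + ∑ u, ∑ w, f (u, w, Fin.castAdd n 3) +
    ∑ u, ∑ w, ∑ t : Fin n, f (u, w, Fin.natAdd 4 t) := by
  rw [Fintype.sum_prod_type]
  simp only [Fintype.sum_prod_type, Fin.sum_univ_add, Fin.sum_univ_four, Finset.sum_add_distrib]

variable (G : SimpleGraph V) {n : ℕ}

omit [Fintype V] in
theorem inc_eq_one {p : Pt V} {b : Bk V n} (h : mem G p b) : inc G p b = 1 := if_pos h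

omit [Fintype V] in
theorem inc_eq_zero {p : Pt V} {b : Bk V n} (h : ¬ mem G p b) : inc G p b = 0 := if_neg h

omit [Fintype V] in
theorem inc_ll (x u w : V) (t : Fin (4 + n)) : inc (n := n) G (.inl x) (.inl (u, w, t)) =
    if t.val = 1 then (if x = u then 1 else 0) else if t.val = 2 then (if x = w then 1 else 0)
      else if t.val = 3 then 0 else ii x u w := by
  have h : mem (n := n) G (.inl x) (.inl (u, w, t)) ↔ (if t.val = 1 then x = u else
    if t.val = 2 then x = w else if t.val = 3 then False else (x = u ∨ x = w)) := Iff.rfl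
  unfold ii
  by_cases h0 : mem (n := n) G (.inl x) (.inl (u, w, t))
  · rw [inc_eq_one G h0]
    rw [h] at h0
    split_ifs at * <;> rfl
  · rw [inc_eq_zero G h0]
    rw [h] at h0
    split_ifs at * <;> rfl

/-- the indicator of adjacency -/
noncomputable def ad (u w : V) : ℝ := if G.Adj u w then 1 else 0

omit [Fintype V] in
theorem inc_rl (i : Fin 2) (u w : V) (t : Fin (4 + n)) :
    inc (n := n) G (.inr i) (.inl (u, w, t)) =
    if t.val = 0 ∨ t.val = 3 then (if i = 0 then ad G u w else 1 - ad G u w)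
      else if t.val = 1 ∨ t.val = 2 then (if i = 0 then 1 - ad G u w else ad G u w) else 0 := by
  have h : mem (n := n) G (.inr i) (.inl (u, w, t)) ↔
    (if i = 0 then pat (G.Adj u w) t.val else pat (¬ G.Adj u w) t.val) := Iff.rfl
  unfold pat at h
  unfold ad
  by_cases h0 : mem (n := n) G (.inr i) (.inl (u, w, t))
  · rw [inc_eq_one G h0]
    rw [h] at h0
    split_ifs at * <;> grind
  · rw [inc_eq_zero G h0]
    rw [h] at h0
    split_ifs at * <;> grind

theorem main_vv (x y : V) : ∑ b : V × V × Fin (4 + n),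
    inc (n := n) G (.inl x) (.inl b) * inc (n := n) G (.inl y) (.inl b) =
    if x = y then (2 * (Fintype.card V : ℝ) - 1) * (n + 1) + 2 * Fintype.card V else
      2 * (n + 1) := by
  rw [sum_main]
  simp only [inc_ll, Fin.val_castAdd, Fin.val_natAdd]
  have h3 : ((3 : Fin 4) : ℕ) = 3 := rfl
  have h2 : ((2 : Fin 4) : ℕ) = 2 := rfl
  have h1 : ((1 : Fin 4) : ℕ) = 1 := rfl
  have h0 : ((0 : Fin 4) : ℕ) = 0 := rfl
  have e1 : ∀ t : Fin n, ¬ (4 + (t : ℕ) = 1) := fun t => by omega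
  have e2 : ∀ t : Fin n, ¬ (4 + (t : ℕ) = 2) := fun t => by omega
  have e3 : ∀ t : Fin n, ¬ (4 + (t : ℕ) = 3) := fun t => by omega
  have f1 : ¬ ((0 : ℕ) = 1) := by omega
  have f2 : ¬ ((0 : ℕ) = 2) := by omega
  have f3 : ¬ ((0 : ℕ) = 3) := by omega
  have f4 : ¬ ((2 : ℕ) = 1) := by omega
  have f5 : ¬ ((3 : ℕ) = 1) := by omega
  have f6 : ¬ ((3 : ℕ) = 2) := by omega
  simp only [h0, h1, h2, h3, e1, e2, e3, f1, f2, f3, f4, f5, f6, if_false, if_true,
    Finset.sum_const, Finset.card_univ,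
    Fintype.card_fin, mul_zero, nsmul_eq_mul, ← Finset.mul_sum, sum_ii_ii]
  by_cases h : x = y
  · subst h
    simp
    ring
  · simp only [if_neg h]
    have : ∀ u, (if x = u then (1 : ℝ) else 0) * (if y = u then 1 else 0) = 0 := by
      intro u
      by_cases h1 : x = u
      · subst h1
        simp [Ne.symm h]
      · simp [h1]
    simp only [this]
    simp
    ring

omit [Fintype V] in
theorem ad_symm (u w : V) : ad G u w = ad G w u := by
  unfold ad
  simp only [G.adj_comm]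

omit [Fintype V] in
theorem ad_self (u : V) : ad G u u = 0 := by
  unfold ad
  simp

theorem sum_ii_one (x : V) : ∑ u, ∑ w, ii x u w = 2 * (Fintype.card V : ℝ) - 1 := by
  have h := sum_ii x (fun _ _ => 1)
  simp only [mul_one] at h
  rw [h]
  simp
  ring

theorem sum_ii_ad (x : V) : ∑ u, ∑ w, ii x u w * ad G u w = 2 * ∑ w, ad G x w := by
  rw [sum_ii, ad_self]
  have : ∀ u, ad G u x = ad G x u := fun u => ad_symm G u x
  simp only [this]
  ring

theorem main_vr (x : V) (i : Fin 2) : ∑ b : V × V × Fin (4 + n),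
    inc (n := n) G (.inl x) (.inl b) * inc (n := n) G (.inr i) (.inl b) =
    if i = 0 then 2 * (Fintype.card V : ℝ) else 2 * Fintype.card V - 1 := by
  rw [sum_main]
  simp only [inc_ll, inc_rl, Fin.val_castAdd, Fin.val_natAdd]
  have h3 : ((3 : Fin 4) : ℕ) = 3 := rfl
  have h2 : ((2 : Fin 4) : ℕ) = 2 := rfl
  have h1 : ((1 : Fin 4) : ℕ) = 1 := rfl
  have h0 : ((0 : Fin 4) : ℕ) = 0 := rfl
  have e0 : ∀ t : Fin n, ¬ (4 + (t : ℕ) = 0) := fun t => by omega
  have e1 : ∀ t : Fin n, ¬ (4 + (t : ℕ) = 1) := fun t => by omega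
  have e2 : ∀ t : Fin n, ¬ (4 + (t : ℕ) = 2) := fun t => by omega
  have e3 : ∀ t : Fin n, ¬ (4 + (t : ℕ) = 3) := fun t => by omega
  have f1 : ¬ ((0 : ℕ) = 1) := by omega
  have f2 : ¬ ((0 : ℕ) = 2) := by omega
  have f3 : ¬ ((0 : ℕ) = 3) := by omega
  have f4 : ¬ ((2 : ℕ) = 1) := by omega
  have f5 : ¬ ((3 : ℕ) = 1) := by omega
  have f6 : ¬ ((3 : ℕ) = 2) := by omega
  have f7 : ¬ ((1 : ℕ) = 0) := by omega
  have f8 : ¬ ((1 : ℕ) = 3) := by omega
  have f9 : ¬ ((2 : ℕ) = 0) := by omega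
  have f10 : ¬ ((2 : ℕ) = 3) := by omega
  simp only [h0, h1, h2, h3, e0, e1, e2, e3, f1, f2, f3, f4, f5, f6, f7, f8, f9, f10, if_false,
    if_true, or_false, or_self, true_or, or_true,
    Finset.sum_const, Finset.card_univ, Fintype.card_fin, mul_zero, zero_mul, nsmul_eq_mul]
  have k1 : ∑ u, ∑ w : V, (if x = u then (1 : ℝ) else 0) * ad G u w = ∑ w, ad G x w := by
    simp [ite_mul]
  have k2 : ∑ u : V, ∑ w : V, (if x = w then (1 : ℝ) else 0) * ad G u w = ∑ w, ad G x w := by
    simp [ite_mul, ad_symm G _ x]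
  have k3 : ∑ u : V, ∑ w : V, (if x = u then (1 : ℝ) else 0) = Fintype.card V := by
    simp
  have k4 : ∑ u : V, ∑ w : V, (if x = w then (1 : ℝ) else 0) = Fintype.card V := by
    simp
  by_cases hi : i = 0
  · simp only [if_pos hi, mul_sub, mul_one, Finset.sum_sub_distrib, sum_ii_ad, k1, k2, k3, k4]
    ring
  · simp only [if_neg hi, mul_sub, mul_one, Finset.sum_sub_distrib, sum_ii_ad, k1, k2,
      sum_ii_one]
    ring

theorem main_rr (i j : Fin 2) : ∑ b : V × V × Fin (4 + n),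
    inc (n := n) G (.inr i) (.inl b) * inc (n := n) G (.inr j) (.inl b) =
    if i = j then 2 * (Fintype.card V : ℝ) ^ 2 else 0 := by
  rw [sum_main]
  simp only [inc_rl, Fin.val_castAdd, Fin.val_natAdd]
  have h3 : ((3 : Fin 4) : ℕ) = 3 := rfl
  have h2 : ((2 : Fin 4) : ℕ) = 2 := rfl
  have h1 : ((1 : Fin 4) : ℕ) = 1 := rfl
  have h0 : ((0 : Fin 4) : ℕ) = 0 := rfl
  have e0 : ∀ t : Fin n, ¬ (4 + (t : ℕ) = 0) := fun t => by omega
  have e1 : ∀ t : Fin n, ¬ (4 + (t : ℕ) = 1) := fun t => by omega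
  have e2 : ∀ t : Fin n, ¬ (4 + (t : ℕ) = 2) := fun t => by omega
  have e3 : ∀ t : Fin n, ¬ (4 + (t : ℕ) = 3) := fun t => by omega
  have f1 : ¬ ((0 : ℕ) = 1) := by omega
  have f2 : ¬ ((0 : ℕ) = 2) := by omega
  have f3 : ¬ ((0 : ℕ) = 3) := by omega
  have f4 : ¬ ((2 : ℕ) = 1) := by omega
  have f5 : ¬ ((3 : ℕ) = 1) := by omega
  have f6 : ¬ ((3 : ℕ) = 2) := by omega
  have f7 : ¬ ((1 : ℕ) = 0) := by omega
  have f8 : ¬ ((1 : ℕ) = 3) := by omega
  have f9 : ¬ ((2 : ℕ) = 0) := by omega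
  have f10 : ¬ ((2 : ℕ) = 3) := by omega
  have f11 : ¬ ((3 : ℕ) = 0) := by omega
  simp only [h0, h1, h2, h3, e0, e1, e2, e3, f1, f2, f3, f4, f5, f6, f7, f8, f9, f10, f11,
    if_false, if_true, or_false, or_self, true_or, or_true,
    Finset.sum_const, Finset.card_univ, Fintype.card_fin, mul_zero, nsmul_eq_mul]
  have q1 : ∀ u w, ad G u w * ad G u w = ad G u w := by
    intro u w
    unfold ad
    split_ifs <;> norm_num
  have q2 : ∀ u w, (1 - ad G u w) * (1 - ad G u w) = 1 - ad G u w := by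
    intro u w
    unfold ad
    split_ifs <;> norm_num
  have q3 : ∀ u w, (1 - ad G u w) * ad G u w = 0 := by
    intro u w
    unfold ad
    split_ifs <;> norm_num
  have q4 : ∀ u w, ad G u w * (1 - ad G u w) = 0 := by
    intro u w
    unfold ad
    split_ifs <;> norm_num
  have hone : ∑ u : V, ∑ w : V, (1 : ℝ) = (Fintype.card V : ℝ) ^ 2 := by
    simp
    ring
  rcases Fin.exists_fin_two.1 ⟨i, rfl⟩ with hi | hi <;>
    rcases Fin.exists_fin_two.1 ⟨j, rfl⟩ with hj | hj <;> subst hi <;> subst hj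
  · simp only [if_true, q1, q2, Finset.sum_sub_distrib, hone]
    ring
  · simp [q3, q4]
  · simp [q3, q4]
  · have : ¬ ((1 : Fin 2) = 0) := by decide
    simp only [this, if_false, if_true, q1, q2, Finset.sum_sub_distrib, hone]
    ring

open Classical in
omit [Fintype V] in
theorem inc_lm (x u : V) (t : Fin (8 + sA n)) : inc (n := n) G (.inl x) (.inr (.inl (u, t))) =
    if x = u then 1 else 0 := by
  by_cases h : x = u
  · rw [if_pos h]; exact inc_eq_one G h
  · rw [if_neg h]; exact inc_eq_zero G h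

omit [Fintype V] in
theorem inc_lr (x : V) (t : Fin (2 + sD n + sB n + sC n)) :
    inc (n := n) G (.inl x) (.inr (.inr t)) = if t.val < 2 then 1 else 0 := by
  by_cases h : t.val < 2
  · rw [if_pos h]; exact inc_eq_one G h
  · rw [if_neg h]; exact inc_eq_zero G h

omit [Fintype V] in
theorem inc_rm (i : Fin 2) (u : V) (t : Fin (8 + sA n)) :
    inc (n := n) G (.inr i) (.inr (.inl (u, t))) =
    if (if i = 0 then t.val < 3 else 3 ≤ t.val ∧ t.val < 8) then 1 else 0 := by
  by_cases h : (if i = 0 then t.val < 3 else 3 ≤ t.val ∧ t.val < 8)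
  · rw [if_pos h]; exact inc_eq_one G h
  · rw [if_neg h]; exact inc_eq_zero G h

omit [Fintype V] in
theorem inc_rr (i : Fin 2) (t : Fin (2 + sD n + sB n + sC n)) :
    inc (n := n) G (.inr i) (.inr (.inr t)) =
    if (if i = 0 then t.val ≠ 1 ∧ t.val < 2 + sD n + sB n
      else (2 ≤ t.val ∧ t.val < 2 + sD n) ∨ 2 + sD n + sB n ≤ t.val)
      then 1 else 0 := by
  by_cases h : (if i = 0 then t.val ≠ 1 ∧ t.val < 2 + sD n + sB n
      else (2 ≤ t.val ∧ t.val < 2 + sD n) ∨ 2 + sD n + sB n ≤ t.val)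
  · rw [if_pos h]; exact inc_eq_one G h
  · rw [if_neg h]; exact inc_eq_zero G h

theorem mid_vv (x y : V) : ∑ b : V × Fin (8 + sA n),
    inc (n := n) G (.inl x) (.inr (.inl b)) * inc (n := n) G (.inl y) (.inr (.inl b)) =
    if x = y then 8 + (sA n : ℝ) else 0 := by
  simp only [Fintype.sum_prod_type, inc_lm, Finset.sum_const, Finset.card_univ, Fintype.card_fin,
    nsmul_eq_mul]
  by_cases h : x = y
  · subst h
    simp
  · rw [if_neg h]
    refine Finset.sum_eq_zero fun u _ => ?_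
    by_cases h1 : x = u
    · subst h1
      simp [Ne.symm h]
    · simp [h1]

theorem mid_vr (x : V) (i : Fin 2) : ∑ b : V × Fin (8 + sA n),
    inc (n := n) G (.inl x) (.inr (.inl b)) * inc (n := n) G (.inr i) (.inr (.inl b)) =
    if i = 0 then 3 else 5 := by
  simp only [Fintype.sum_prod_type, inc_lm, inc_rm, Fin.sum_univ_add, Fin.sum_univ_eight,
    Fin.val_castAdd, Fin.val_natAdd]
  have e0 : ∀ t : Fin (sA n), ¬ (8 + (t : ℕ) < 3) := fun t => by omega
  have e1 : ∀ t : Fin (sA n), ¬ (8 + (t : ℕ) < 8) := fun t => by omega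
  rcases Fin.exists_fin_two.1 ⟨i, rfl⟩ with hi | hi <;> subst hi
  · simp [e0, Finset.sum_add_distrib]
    norm_num
  · simp [e1, Finset.sum_add_distrib]
    norm_num

theorem mid_rr (i j : Fin 2) : ∑ b : V × Fin (8 + sA n),
    inc (n := n) G (.inr i) (.inr (.inl b)) * inc (n := n) G (.inr j) (.inr (.inl b)) =
    if i = j then (if i = 0 then 3 * (Fintype.card V : ℝ) else 5 * Fintype.card V) else 0 := by
  simp only [Fintype.sum_prod_type, inc_rm, Fin.sum_univ_add, Fin.sum_univ_eight,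
    Fin.val_castAdd, Fin.val_natAdd]
  have e0 : ∀ t : Fin (sA n), ¬ (8 + (t : ℕ) < 3) := fun t => by omega
  have e1 : ∀ t : Fin (sA n), ¬ (8 + (t : ℕ) < 8) := fun t => by omega
  rcases Fin.exists_fin_two.1 ⟨i, rfl⟩ with hi | hi <;>
    rcases Fin.exists_fin_two.1 ⟨j, rfl⟩ with hj | hj <;> subst hi <;> subst hj
  · simp [e0]
    ring
  · simp [e0, e1]
  · simp [e0, e1]
  · simp [e1]
    ring

theorem last_vv (x y : V) : ∑ t : Fin (2 + sD n + sB n + sC n),
    inc (n := n) G (.inl x) (.inr (.inr t)) * inc (n := n) G (.inl y) (.inr (.inr t)) = 2 := by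
  simp only [inc_lr, Fin.sum_univ_add, Fin.sum_univ_two, Fin.val_castAdd, Fin.val_natAdd]
  have e0 : ∀ t : Fin (sD n), ¬ (2 + (t : ℕ) < 2) := fun t => by omega
  have e1 : ∀ t : Fin (sB n), ¬ (2 + sD n + (t : ℕ) < 2) := fun t => by omega
  have e2 : ∀ t : Fin (sC n), ¬ (2 + sD n + sB n + (t : ℕ) < 2) := fun t => by omega
  simp only [e0, e1, e2, if_false, mul_zero, Finset.sum_const_zero]
  norm_num

theorem last_vr (x : V) (i : Fin 2) : ∑ t : Fin (2 + sD n + sB n + sC n),
    inc (n := n) G (.inl x) (.inr (.inr t)) * inc (n := n) G (.inr i) (.inr (.inr t)) =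
    if i = 0 then 1 else 0 := by
  simp only [inc_lr, inc_rr, Fin.sum_univ_add, Fin.sum_univ_two, Fin.val_castAdd, Fin.val_natAdd]
  have e0 : ∀ t : Fin (sD n), ¬ (2 + (t : ℕ) < 2) := fun t => by omega
  have e1 : ∀ t : Fin (sB n), ¬ (2 + sD n + (t : ℕ) < 2) := fun t => by omega
  have e2 : ∀ t : Fin (sC n), ¬ (2 + sD n + sB n + (t : ℕ) < 2) := fun t => by omega
  have e3 : ¬ (2 + sD n + sB n ≤ 0) := by omega
  have e4 : ¬ (2 + sD n + sB n ≤ 1) := by omega
  have e5 : 0 < 2 + sD n + sB n := by omega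
  simp only [e0, e1, e2, if_false, zero_mul, Finset.sum_const_zero]
  rcases Fin.exists_fin_two.1 ⟨i, rfl⟩ with hi | hi <;> subst hi
  · simp
  · simp [e3, e4]

theorem last_rr (i j : Fin 2) : ∑ t : Fin (2 + sD n + sB n + sC n),
    inc (n := n) G (.inr i) (.inr (.inr t)) * inc (n := n) G (.inr j) (.inr (.inr t)) =
    if i = j then (if i = 0 then 1 + (sD n : ℝ) + (sB n : ℝ) else (sD n : ℝ) + (sC n : ℝ))
      else sD n := by
  simp only [inc_rr, Fin.sum_univ_add, Fin.sum_univ_two, Fin.val_castAdd, Fin.val_natAdd]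
  have a0 : ∀ t : Fin (sD n), ¬ (2 + (t : ℕ) = 1) := fun t => by omega
  have a1 : ∀ t : Fin (sD n), 2 + (t : ℕ) < 2 + sD n + sB n := fun t => by omega
  have a2 : ∀ t : Fin (sD n), 2 ≤ 2 + (t : ℕ) := fun t => by omega
  have a3 : ∀ t : Fin (sD n), 2 + (t : ℕ) < 2 + sD n := fun t => by omega
  have b0 : ∀ t : Fin (sB n), ¬ (2 + sD n + (t : ℕ) = 1) := fun t => by omega
  have b1 : ∀ t : Fin (sB n), 2 + sD n + (t : ℕ) < 2 + sD n + sB n :=
    fun t => by omega
  have b2 : ∀ t : Fin (sB n), ¬ (2 + sD n + (t : ℕ) < 2 + sD n) :=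
    fun t => by omega
  have b3 : ∀ t : Fin (sB n), ¬ (2 + sD n + sB n ≤ 2 + sD n + (t : ℕ)) :=
    fun t => by omega
  have c0 : ∀ t : Fin (sC n), ¬ (2 + sD n + sB n + (t : ℕ) < 2 + sD n + sB n) :=
    fun t => by omega
  have c1 : ∀ t : Fin (sC n), 2 + sD n + sB n ≤ 2 + sD n + sB n + (t : ℕ) :=
    fun t => by omega
  have c2 : ∀ t : Fin (sC n), ¬ (2 + sD n + sB n + (t : ℕ) < 2 + sD n) :=
    fun t => by omega
  have d0 : 0 < 2 + sD n + sB n := by omega
  have d1 : ¬ (2 + sD n + sB n ≤ 0) := by omega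
  have d2 : ¬ (2 + sD n + sB n ≤ 1) := by omega
  have z0 : ((0 : Fin 2) : ℕ) = 0 := rfl
  have z1 : ((1 : Fin 2) : ℕ) = 1 := rfl
  have y0 : ¬ ((2 : ℕ) ≤ 0) := by omega
  have y1 : ¬ ((2 : ℕ) ≤ 1) := by omega
  have y2 : ¬ ((1 : Fin 2) = 0) := by decide
  have y3 : ¬ ((0 : Fin 2) = 1) := by decide
  rcases Fin.exists_fin_two.1 ⟨i, rfl⟩ with hi | hi <;>
    rcases Fin.exists_fin_two.1 ⟨j, rfl⟩ with hj | hj <;> subst hi <;> subst hj <;>
    simp only [a0, a1, a2, a3, b0, b1, b2, b3, c0, c1, c2, d0, d1, d2, z0, z1, y0, y1, y2, y3,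
      if_true, if_false, ne_eq, not_true_eq_false, not_false_eq_true, and_true, and_false,
      true_and, false_and, or_false, false_or, or_true, true_or, and_self, or_self,
      Finset.sum_const, Finset.card_univ, Fintype.card_fin, nsmul_eq_mul, mul_one, mul_zero,
      zero_mul, zero_add, add_zero, one_mul, Nat.zero_ne_one]

end Sums

/-- **The incidence structure is balanced.** -/
theorem gram {V : Type} [Fintype V] [DecidableEq V] {n : ℕ} (hn : Fintype.card V = n)
    (G : SimpleGraph V) :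
    inc (n := n) G * (inc (n := n) G)ᵀ =
      ((sD n : ℝ) ^ 2 - (sD n : ℝ)) • (1 : Matrix (Pt V) (Pt V) ℝ) +
        (sD n : ℝ) • Matrix.of (fun _ _ => 1) := by
  ext p q
  rw [Matrix.mul_apply]
  simp only [Matrix.transpose_apply, Matrix.add_apply, Matrix.smul_apply, Matrix.of_apply,
    smul_eq_mul, mul_one, Fintype.sum_sum_type]
  rcases p with x | i <;> rcases q with y | j
  · rw [main_vv, mid_vv, last_vv, hn]
    by_cases h : x = y
    · subst h
      simp only [if_true, Matrix.one_apply_eq, sA, sD]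
      push_cast
      ring
    · have h' : (Sum.inl x : Pt V) ≠ Sum.inl y := fun e => h (Sum.inl_injective e)
      rw [if_neg h, if_neg h, Matrix.one_apply_ne h']
      simp only [sD]
      push_cast
      ring
  · rw [main_vr, mid_vr, last_vr, hn, Matrix.one_apply_ne (by simp)]
    simp only [sD]
    split_ifs <;> push_cast <;> ring
  · have e1 := main_vr (n := n) G y i
    have e2 := mid_vr (n := n) G y i
    have e3 := last_vr (n := n) G y i
    simp only [mul_comm (inc (n := n) G (.inl y) _)] at e1 e2 e3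
    rw [e1, e2, e3, hn, Matrix.one_apply_ne (by simp)]
    simp only [sD]
    split_ifs <;> push_cast <;> ring
  · rw [main_rr, mid_rr, last_rr, hn]
    by_cases h : i = j
    · subst h
      simp only [if_true, Matrix.one_apply_eq, sB, sC, sD]
      split_ifs <;> push_cast <;> ring
    · have h' : (Sum.inr i : Pt V) ≠ Sum.inr j := fun e => h (Sum.inr_injective e)
      rw [if_neg h, if_neg h, if_neg h, Matrix.one_apply_ne h']
      ring

end Pool.Agent.Helper55.GI
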