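import Pool.Agent.Helper55.GI.Recover
import Pool.Graph.R_pool_sql_team_seeded_b0a926ef.R542.GI.Core

/-!
# The new graph on an initial segment of the natural numbers, in polynomial time
-/

set_option autoImplicit false

namespace Pool.Agent.Helper55.GI

open SimpleGraph Pool.Agent.H692R2 Pool.Agent.NPC Pool.Agent.NPC.R542

/-- numbers of blocks -/
def nA (n : ℕ) : ℕ := n * (n * (4 + n))
def nB (n : ℕ) : ℕ := n * (8 + sA n)
abbrev nC (n : ℕ) : ℕ := 2 + sD n + sB n + sC n

/-- number of vertices -/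
def nV (n : ℕ) : ℕ := (n + 2) + (nA n + (nB n + nC n))

def eP (n : ℕ) : Pt (Fin n) ≃ Fin (n + 2) := finSumFinEquiv

def eA (n : ℕ) : Fin n × Fin n × Fin (4 + n) ≃ Fin (nA n) :=
  (Equiv.prodCongr (Equiv.refl (Fin n)) (finProdFinEquiv (m := n) (n := 4 + n))).trans
    finProdFinEquiv

def eB (n : ℕ) : Fin n × Fin (8 + sA n) ≃ Fin (nB n) := finProdFinEquiv

def eK (n : ℕ) : Bk (Fin n) n ≃ Fin (nA n + (nB n + nC n)) :=
  (Equiv.sumCongr (eA n) ((Equiv.sumCongr (eB n) (Equiv.refl (Fin (nC n)))).trans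
    finSumFinEquiv)).trans finSumFinEquiv

/-- the numbering of the vertices -/
def eV (n : ℕ) : Pt (Fin n) ⊕ Bk (Fin n) n ≃ Fin (nV n) :=
  (Equiv.sumCongr (eP n) (eK n)).trans finSumFinEquiv

theorem eA_val {n : ℕ} (u w : Fin n) (t : Fin (4 + n)) :
    ((eA n (u, w, t) : Fin (nA n)) : ℕ) = (t + (4 + n) * w) + (n * (4 + n)) * u := rfl

theorem eB_val {n : ℕ} (u : Fin n) (t : Fin (8 + sA n)) :
    ((eB n (u, t) : Fin (nB n)) : ℕ) = t + (8 + sA n) * u := rfl

theorem eK_A {n : ℕ} (x : Fin n × Fin n × Fin (4 + n)) :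
    ((eK n (.inl x) : Fin _) : ℕ) = (eA n x : ℕ) := rfl

theorem eK_B {n : ℕ} (x : Fin n × Fin (8 + sA n)) :
    ((eK n (.inr (.inl x)) : Fin _) : ℕ) = nA n + (eB n x : ℕ) := rfl

theorem eK_C {n : ℕ} (t : Fin (nC n)) :
    ((eK n (.inr (.inr t)) : Fin _) : ℕ) = nA n + (nB n + t) := rfl

theorem eV_P {n : ℕ} (p : Pt (Fin n)) : ((eV n (.inl p) : Fin _) : ℕ) = (eP n p : ℕ) := rfl

theorem eV_K {n : ℕ} (b : Bk (Fin n) n) :
    ((eV n (.inr b) : Fin _) : ℕ) = (n + 2) + (eK n b : ℕ) := rfl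

theorem eP_l {n : ℕ} (x : Fin n) : ((eP n (.inl x) : Fin _) : ℕ) = x := by
  simp [eP]

theorem eP_r {n : ℕ} (i : Fin 2) : ((eP n (.inr i) : Fin _) : ℕ) = n + i := by
  simp [eP]

/-- the pattern -/
def patB (a : Bool) (t : ℕ) : Bool :=
  ((decide (t = 0) || decide (t = 3)) && a) || ((decide (t = 1) || decide (t = 2)) && !a)

theorem patB_iff (a : Bool) (t : ℕ) : patB a t = true ↔ pat (a = true) t := by
  unfold patB pat
  simp

/-- incidence with a block of the first kind -/
noncomputable def mA (X : FinGraph) (i j : ℕ) : Bool :=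
  let n := X.n
  let t := j % (4 + n)
  let u := j / (4 + n) / n
  let w := j / (4 + n) % n
  if i < n then (decide (t = 1) && decide (i = u)) || ((decide (t = 2) && decide (i = w)) ||
    ((!decide (t = 1) && (!decide (t = 2) && !decide (t = 3))) &&
      (decide (i = u) || decide (i = w))))
  else if i = n then patB (adjB X u w) t else patB (!adjB X u w) t

/-- incidence with a block of the second kind -/
def mB (n i j : ℕ) : Bool :=
  let t := j % (8 + sA n)
  let u := j / (8 + sA n)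
  if i < n then decide (i = u) else if i = n then decide (t < 3)
    else decide (3 ≤ t) && decide (t < 8)

/-- incidence with a block of the third kind -/
def mC (n i t : ℕ) : Bool :=
  if i < n then decide (t < 2) else if i = n then !decide (t = 1) && decide (t < 2 + sD n + sB n)
    else (decide (2 ≤ t) && decide (t < 2 + sD n)) || decide (2 + sD n + sB n ≤ t)

/-- incidence -/
noncomputable def mK (X : FinGraph) (i j : ℕ) : Bool :=
  let n := X.n
  if j < nA n then mA X i j else if j < nA n + nB n then mB n i (j - nA n)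
    else mC n i (j - (nA n + nB n))

/-- adjacency -/
noncomputable def bb (X : FinGraph) (i j : ℕ) : Bool :=
  let n := X.n
  if i < n + 2 then (if j < n + 2 then !decide (i = j) else mK X i (j - (n + 2)))
    else (if j < n + 2 then mK X j (i - (n + 2)) else false)

theorem mA_iff (X : FinGraph) (p : Pt (Fin X.n)) (x : Fin X.n × Fin X.n × Fin (4 + X.n)) :
    mA X (eP X.n p) (eA X.n x) = true ↔ mem (n := X.n) X.graph p (.inl x) := by
  obtain ⟨u, w, t⟩ := x
  have hn : 0 < X.n := lt_of_le_of_lt (Nat.zero_le _) u.2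
  have ht := t.2
  have e0 : ((eA X.n (u, w, t) : Fin (nA X.n)) : ℕ) = t + (4 + X.n) * (w + X.n * u) := by
    rw [eA_val]; ring
  have e1 : (t + (4 + X.n) * (w + X.n * u) : ℕ) % (4 + X.n) = t := by
    rw [Nat.add_mul_mod_self_left, Nat.mod_eq_of_lt ht]
  have e2 : (t + (4 + X.n) * (w + X.n * u) : ℕ) / (4 + X.n) = w + X.n * u := by
    rw [Nat.add_mul_div_left _ _ (by omega), Nat.div_eq_of_lt ht, zero_add]
  have e3 : (w + X.n * u : ℕ) / X.n = u := by
    rw [Nat.add_mul_div_left _ _ hn, Nat.div_eq_of_lt w.2, zero_add]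
  have e4 : (w + X.n * u : ℕ) % X.n = w := by
    rw [Nat.add_mul_mod_self_left, Nat.mod_eq_of_lt w.2]
  unfold mA
  simp only [e0, e1, e2, e3, e4]
  have ha := adjB_iff X u w
  rcases p with x | i
  · rw [eP_l, if_pos x.2, mem_ll]
    simp only [Bool.or_eq_true, Bool.and_eq_true, Bool.not_eq_true', decide_eq_true_eq,
      decide_eq_false_iff_not, Fin.ext_iff, and_assoc, ne_eq]
  · rw [eP_r, if_neg (by omega)]
    rcases Fin.exists_fin_two.1 ⟨i, rfl⟩ with hi | hi <;> subst hi
    · rw [if_pos (by simp), patB_iff, mem_0l, ha]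
    · rw [if_neg (by simp), patB_iff, mem_1l, ← ha]
      simp

theorem mB_iff (X : FinGraph) (p : Pt (Fin X.n)) (x : Fin X.n × Fin (8 + sA X.n)) :
    mB X.n (eP X.n p) (eB X.n x) = true ↔ mem (n := X.n) X.graph p (.inr (.inl x)) := by
  obtain ⟨u, t⟩ := x
  have ht := t.2
  have e1 : (t + (8 + sA X.n) * u : ℕ) % (8 + sA X.n) = t := by
    rw [Nat.add_mul_mod_self_left, Nat.mod_eq_of_lt ht]
  have e2 : (t + (8 + sA X.n) * u : ℕ) / (8 + sA X.n) = u := by
    rw [Nat.add_mul_div_left _ _ (by omega), Nat.div_eq_of_lt ht, zero_add]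
  unfold mB
  simp only [eB_val, e1, e2]
  rcases p with x | i
  · rw [eP_l, if_pos x.2, mem_lm]
    simp only [decide_eq_true_eq, Fin.ext_iff]
  · rw [eP_r, if_neg (by omega)]
    rcases Fin.exists_fin_two.1 ⟨i, rfl⟩ with hi | hi <;> subst hi
    · rw [if_pos (by simp), mem_0m]
      simp
    · rw [if_neg (by simp), mem_1m]
      simp

theorem mC_iff (X : FinGraph) (p : Pt (Fin X.n)) (t : Fin (nC X.n)) :
    mC X.n (eP X.n p) t = true ↔ mem (n := X.n) X.graph p (.inr (.inr t)) := by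
  unfold mC
  rcases p with x | i
  · rw [eP_l, if_pos x.2, mem_lr]
    simp
  · rw [eP_r, if_neg (by omega)]
    rcases Fin.exists_fin_two.1 ⟨i, rfl⟩ with hi | hi <;> subst hi
    · rw [if_pos (by simp), mem_0r]
      simp
    · rw [if_neg (by simp), mem_1r]
      simp

theorem mK1 {X : FinGraph} {i j : ℕ} (h : j < nA X.n) : mK X i j = mA X i j := if_pos h

theorem mK2 {X : FinGraph} {i j : ℕ} (h : j < nB X.n) :
    mK X i (nA X.n + j) = mB X.n i j := by
  unfold mK
  simp only
  rw [if_neg (by omega), if_pos (by omega), Nat.add_sub_cancel_left]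

theorem mK3 {X : FinGraph} {i j : ℕ} :
    mK X i (nA X.n + (nB X.n + j)) = mC X.n i j := by
  unfold mK
  simp only
  rw [if_neg (by omega), if_neg (by omega), ← Nat.add_assoc, Nat.add_sub_cancel_left]

theorem mK_iff (X : FinGraph) (p : Pt (Fin X.n)) (b : Bk (Fin X.n) X.n) :
    mK X (eP X.n p) (eK X.n b) = true ↔ mem (n := X.n) X.graph p b := by
  rcases b with x | x | t
  · rw [eK_A, mK1 (eA X.n x).2]
    exact mA_iff X p x
  · rw [eK_B, mK2 (eB X.n x).2]
    exact mB_iff X p x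
  · rw [eK_C, mK3]
    exact mC_iff X p t

theorem bb1 {X : FinGraph} {i j : ℕ} (hi : i < X.n + 2) (hj : j < X.n + 2) :
    bb X i j = !decide (i = j) := by
  unfold bb
  simp only
  rw [if_pos hi, if_pos hj]

theorem bb2 {X : FinGraph} {i j : ℕ} (hi : i < X.n + 2) :
    bb X i (X.n + 2 + j) = mK X i j := by
  unfold bb
  simp only
  rw [if_pos hi, if_neg (by omega), Nat.add_sub_cancel_left]

theorem bb3 {X : FinGraph} {i j : ℕ} (hj : j < X.n + 2) :
    bb X (X.n + 2 + i) j = mK X j i := by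
  unfold bb
  simp only
  rw [if_neg (by omega), if_pos hj, Nat.add_sub_cancel_left]

theorem bb4 {X : FinGraph} {i j : ℕ} :
    bb X (X.n + 2 + i) (X.n + 2 + j) = false := by
  unfold bb
  simp only
  rw [if_neg (by omega), if_neg (by omega)]

theorem bb_iff (X : FinGraph) (x y : Pt (Fin X.n) ⊕ Bk (Fin X.n) X.n) :
    bb X (eV X.n x) (eV X.n y) = true ↔ (gam X.n X.graph).Adj x y := by
  rcases x with p | b <;> rcases y with q | c
  · rw [eV_P, eV_P, bb1 (eP X.n p).2 (eP X.n q).2, gam_ll]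
    simp only [Bool.not_eq_true', decide_eq_false_iff_not]
    rw [← Fin.ext_iff, (eP X.n).injective.eq_iff]
  · rw [eV_P, eV_K, bb2 (eP X.n p).2, gam_lr]
    exact mK_iff X p c
  · rw [eV_P, eV_K, bb3 (eP X.n q).2, gam_rl]
    exact mK_iff X q b
  · rw [eV_K, eV_K, bb4]
    simp only [Bool.false_eq_true, false_iff]
    exact gam_rr _ _ _

/-- The new graph, as a graph with vertices `0, 1, …`. -/
def fgam (X : FinGraph) : FinGraph := ⟨nV X.n, (gam X.n X.graph).comap (eV X.n).symm⟩

def fgamIso (X : FinGraph) : (fgam X).graph ≃g gam X.n X.graph :=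
  Iso.comap (eV X.n).symm _

section
variable {α : Type} [TEnc α]

theorem poly_sA {n : α → ℕ} (hn : Poly n) : Poly (fun a => sA (n a)) := by
  refine Poly.congr (Poly.add (Poly.add (Poly.mul (NPC.Poly.const 2) (Poly.mul hn hn))
    (Poly.mul (NPC.Poly.const 13) hn)) (NPC.Poly.const 7)) fun a => ?_
  unfold sA; ring

theorem poly_sB {n : α → ℕ} (hn : Poly n) : Poly (fun a => sB (n a)) := by
  refine Poly.congr (Poly.add (Poly.add (Poly.mul (NPC.Poly.const 2) (Poly.mul hn hn))
    (Poly.mul (NPC.Poly.const 11) hn)) (NPC.Poly.const 11)) fun a => ?_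
  unfold sB; ring

theorem poly_sC {n : α → ℕ} (hn : Poly n) : Poly (fun a => sC (n a)) := by
  refine Poly.congr (Poly.add (Poly.add (Poly.mul (NPC.Poly.const 2) (Poly.mul hn hn))
    (Poly.mul (NPC.Poly.const 9) hn)) (NPC.Poly.const 12)) fun a => ?_
  unfold sC; ring

theorem poly_sD {n : α → ℕ} (hn : Poly n) : Poly (fun a => sD (n a)) :=
  Poly.add (Poly.mul (NPC.Poly.const 2) hn) (NPC.Poly.const 4)

theorem poly_nA {n : α → ℕ} (hn : Poly n) : Poly (fun a => nA (n a)) :=
  Poly.mul hn (Poly.mul hn (Poly.add (NPC.Poly.const 4) hn))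

theorem poly_nB {n : α → ℕ} (hn : Poly n) : Poly (fun a => nB (n a)) :=
  Poly.mul hn (Poly.add (NPC.Poly.const 8) (poly_sA hn))

theorem nV_eq (n : ℕ) : nV n = 3 * n ^ 3 + 21 * n ^ 2 + 38 * n + 31 := by
  unfold nV nA nB nC sA sB sC sD
  ring

theorem upoly_nV {n : α → ℕ} (hn : UPoly n) : UPoly (fun a => nV (n a)) := by
  have h1 := UPoly.add (UPoly.add (UPoly.add
    (UPoly.mul (UPoly.const 3) (UPoly.mul hn (UPoly.mul hn hn)))
    (UPoly.mul (UPoly.const 21) (UPoly.mul hn hn))) (UPoly.mul (UPoly.const 38) hn))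
    (UPoly.const (α := α) 31)
  refine Poly.congr h1 fun a => ?_
  congr 1
  simp only [nV_eq]
  ring

theorem poly_patB {b : α → Bool} {t : α → ℕ} (hb : Poly b) (ht : Poly t) :
    Poly (fun a => patB (b a) (t a)) :=
  Poly.or (Poly.and (Poly.or (Poly.decide_eq ht (NPC.Poly.const 0)) (Poly.decide_eq ht (NPC.Poly.const 3)))
    hb) (Poly.and (Poly.or (Poly.decide_eq ht (NPC.Poly.const 1)) (Poly.decide_eq ht (NPC.Poly.const 2)))
    (Poly.not hb))

theorem poly_mA {X : α → FinGraph} {i j : α → ℕ} (hX : Poly X) (hi : Poly i) (hj : Poly j) :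
    Poly (fun a => mA (X a) (i a) (j a)) := by
  have hn : Poly (fun a => (X a).n) := poly_n hX
  have h4 : Poly (fun a => 4 + (X a).n) := Poly.add (NPC.Poly.const 4) hn
  have ht : Poly (fun a => j a % (4 + (X a).n)) := Poly.mod hj h4
  have hq : Poly (fun a => j a / (4 + (X a).n)) := Poly.div hj h4
  have hu : Poly (fun a => j a / (4 + (X a).n) / (X a).n) := Poly.div hq hn
  have hw : Poly (fun a => j a / (4 + (X a).n) % (X a).n) := Poly.mod hq hn
  have t1 := Poly.decide_eq ht (NPC.Poly.const 1)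
  have t2 := Poly.decide_eq ht (NPC.Poly.const 2)
  have t3 := Poly.decide_eq ht (NPC.Poly.const 3)
  have iu := Poly.decide_eq hi hu
  have iw := Poly.decide_eq hi hw
  exact Poly.ite (Poly.decide_lt hi hn) (Poly.or (Poly.and t1 iu) (Poly.or (Poly.and t2 iw)
    (Poly.and (Poly.and (Poly.not t1) (Poly.and (Poly.not t2) (Poly.not t3)))
      (Poly.or iu iw))))
    (Poly.ite (Poly.decide_eq hi hn) (poly_patB (poly_adjB hX hu hw) ht)
      (poly_patB (Poly.not (poly_adjB hX hu hw)) ht))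

theorem poly_mB {n i j : α → ℕ} (hn : Poly n) (hi : Poly i) (hj : Poly j) :
    Poly (fun a => mB (n a) (i a) (j a)) := by
  have h8 : Poly (fun a => 8 + sA (n a)) := Poly.add (NPC.Poly.const 8) (poly_sA hn)
  have ht := Poly.mod hj h8
  have hu := Poly.div hj h8
  exact Poly.ite (Poly.decide_lt hi hn) (Poly.decide_eq hi hu) (Poly.ite (Poly.decide_eq hi hn)
    (Poly.decide_lt ht (NPC.Poly.const 3)) (Poly.and (Poly.decide_le (NPC.Poly.const 3) ht)
      (Poly.decide_lt ht (NPC.Poly.const 8))))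

theorem poly_mC {n i t : α → ℕ} (hn : Poly n) (hi : Poly i) (ht : Poly t) :
    Poly (fun a => mC (n a) (i a) (t a)) := by
  have h1 : Poly (fun a => 2 + sD (n a)) := Poly.add (NPC.Poly.const 2) (poly_sD hn)
  have h2 : Poly (fun a => 2 + sD (n a) + sB (n a)) := Poly.add h1 (poly_sB hn)
  exact Poly.ite (Poly.decide_lt hi hn) (Poly.decide_lt ht (NPC.Poly.const 2))
    (Poly.ite (Poly.decide_eq hi hn) (Poly.and (Poly.not (Poly.decide_eq ht (NPC.Poly.const 1)))
      (Poly.decide_lt ht h2)) (Poly.or (Poly.and (Poly.decide_le (NPC.Poly.const 2) ht)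
        (Poly.decide_lt ht h1)) (Poly.decide_le h2 ht)))

theorem poly_mK {X : α → FinGraph} {i j : α → ℕ} (hX : Poly X) (hi : Poly i) (hj : Poly j) :
    Poly (fun a => mK (X a) (i a) (j a)) := by
  have hn : Poly (fun a => (X a).n) := poly_n hX
  have hA := poly_nA hn
  have hAB := Poly.add hA (poly_nB hn)
  exact Poly.ite (Poly.decide_lt hj hA) (poly_mA hX hi hj) (Poly.ite (Poly.decide_lt hj hAB)
    (poly_mB hn hi (Poly.sub hj hA)) (poly_mC hn hi (Poly.sub hj hAB)))

theorem poly_bb {X : α → FinGraph} {i j : α → ℕ} (hX : Poly X) (hi : Poly i) (hj : Poly j) :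
    Poly (fun a => bb (X a) (i a) (j a)) := by
  have hn : Poly (fun a => (X a).n + 2) := Poly.add (poly_n hX) (NPC.Poly.const 2)
  exact Poly.ite (Poly.decide_lt hi hn) (Poly.ite (Poly.decide_lt hj hn)
    (Poly.not (Poly.decide_eq hi hj)) (poly_mK hX hi (Poly.sub hj hn)))
    (Poly.ite (Poly.decide_lt hj hn) (poly_mK hX hj (Poly.sub hi hn)) (NPC.Poly.const false))

/-- **The new graph is computed in polynomial time.** -/
theorem poly_fgam {X : α → FinGraph} (hX : Poly X) : Poly (fun a => fgam (X a)) := by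
  refine poly_finGraph (b := fun a i j => bb (X a) i j) (upoly_nV (upoly_n hX)) ?_ ?_
  · have e0 : Poly (fun p : (α × ℕ) × ℕ => p.1.1) := Poly.fst (Poly.fst Poly.id)
    exact poly_bb (Poly.comp (g := X) hX e0) (Poly.snd (Poly.fst Poly.id)) (Poly.snd Poly.id)
  · intro a i j
    have h := bb_iff (X a) ((eV (X a).n).symm i) ((eV (X a).n).symm j)
    rw [Equiv.apply_symm_apply, Equiv.apply_symm_apply] at h
    exact h.symm

end

end Pool.Agent.Helper55.GI
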