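import Pool.Agent.Helper55.GI.Play

/-!
# Graph isomorphism on split graphs with four eigenvalues
-/

set_option autoImplicit false

namespace Pool.Agent.Helper55.GI

open SimpleGraph Pool.Agent.H692R2 Pool.Agent.W185.SRG Pool.Agent.Y598.Circ
open Pool.Agent.NPC Pool.Agent.NPC.R542.GI

/-! ### The spectrum -/

open Classical Polynomial in
/-- The characteristic polynomial of the adjacency matrix is
`x ^ (N - 2 m) (x + 2 m) ^ m (x - (2 m - 1)) ^ (m - 1) (x - (3 m - 1))`, with `N` vertices, `2 ≤ m`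
and `2 m < N`: there are exactly four distinct eigenvalues, `3 m - 1`, `2 m - 1`, `0`
and `- 2 m`. -/
def HasSpec (m : ℕ) (G : FinGraph) : Prop :=
  2 ≤ m ∧ 2 * m < G.n ∧ (G.graph.adjMatrix ℤ).charpoly =
    X ^ (G.n - 2 * m) * (X + C (2 * (m : ℤ))) ^ m * (X - C (2 * (m : ℤ) - 1)) ^ (m - 1) *
      (X - C (3 * (m : ℤ) - 1))

section
open Classical Polynomial

theorem adjMatrix_gam {V : Type} [Fintype V] [DecidableEq V] (n : ℕ) (G : SimpleGraph V) :
    (gam n G).adjMatrix ℝ = splitM ℝ (inc (n := n) G) := by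
  ext x y
  rw [adjMatrix_apply]
  unfold splitM
  rcases x with p | b <;> rcases y with q | c
  · rw [Matrix.fromBlocks_apply₁₁]
    by_cases h : p = q
    · subst h
      simp [Matrix.one_apply_eq]
    · rw [if_pos ((gam_ll G p q).2 h)]
      simp [Matrix.one_apply_ne h]
  · rw [Matrix.fromBlocks_apply₁₂]
    by_cases h : mem G p c
    · rw [if_pos ((gam_lr G p c).2 h), inc_eq_one G h]
    · rw [if_neg (fun h' => h ((gam_lr G p c).1 h')), inc_eq_zero G h]
  · rw [Matrix.fromBlocks_apply₂₁, Matrix.transpose_apply]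
    by_cases h : mem G q b
    · rw [if_pos ((gam_rl G q b).2 h), inc_eq_one G h]
    · rw [if_neg (fun h' => h ((gam_rl G q b).1 h')), inc_eq_zero G h]
  · rw [Matrix.fromBlocks_apply₂₂, if_neg (gam_rr G b c)]
    rfl

theorem card_Bk (n : ℕ) : Fintype.card (Bk (Fin n) n) = nV n - (n + 2) := by
  have h := Fintype.card_congr (eK n)
  rw [h, Fintype.card_fin]
  unfold nV
  omega

theorem hasSpec_fgam (Y : FinGraph) (hY : 1 ≤ Y.n) : HasSpec (Y.n + 2) (fgam Y) := by
  have hN : (fgam Y).n = nV Y.n := rfl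
  have hlt : 2 * (Y.n + 2) < nV Y.n := by
    rw [nV_eq]
    nlinarith [Nat.zero_le (Y.n ^ 3), Nat.zero_le (Y.n ^ 2)]
  refine ⟨by omega, hlt, ?_⟩
  apply Polynomial.map_injective (Int.castRingHom ℝ) Int.cast_injective
  obtain ⟨e, he⟩ : ∃ e : (Pt (Fin Y.n) ⊕ Bk (Fin Y.n) Y.n) ≃ Fin (fgam Y).n,
      ∀ i j, (fgam Y).graph.Adj i j ↔ (gam Y.n Y.graph).Adj (e.symm i) (e.symm j) :=
    ⟨eV Y.n, fun i j => Iff.rfl⟩
  have h1 : ((fgam Y).graph.adjMatrix ℤ).map (Int.castRingHom ℝ) =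
      Matrix.reindex e e (splitM ℝ (inc (n := Y.n) Y.graph)) := by
    rw [← adjMatrix_gam]
    ext i j
    rw [Matrix.map_apply, adjMatrix_apply, Matrix.reindex_apply, Matrix.submatrix_apply,
      adjMatrix_apply]
    have h2 := he i j
    by_cases h : (fgam Y).graph.Adj i j
    · rw [if_pos h, if_pos (h2.1 h)]; simp
    · rw [if_neg h, if_neg (fun h' => h (h2.2 h'))]; simp
  rw [← Matrix.charpoly_map, h1, Matrix.charpoly_reindex]
  have hcP : Fintype.card (Pt (Fin Y.n)) = Y.n + 2 := by simp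
  have hcB := card_Bk Y.n
  have hg := gram (V := Fin Y.n) (n := Y.n) (by simp) Y.graph
  rw [charpoly_splitM _ (sD Y.n) (by rw [hcP]; omega) (by rw [hcP, hcB]; omega) hg, hcP, hcB, hN]
  have e1 : nV Y.n - (Y.n + 2) - (Y.n + 2) = nV Y.n - 2 * (Y.n + 2) := by omega
  rw [e1]
  have c1 : (C (2 * ((Y.n + 2 : ℕ) : ℤ))).map (Int.castRingHom ℝ) = C ((sD Y.n : ℕ) : ℝ) := by
    rw [Polynomial.map_C]
    congr 1
  have c2 : (C (2 * ((Y.n + 2 : ℕ) : ℤ) - 1)).map (Int.castRingHom ℝ) =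
      C (((sD Y.n : ℕ) : ℝ) - 1) := by
    rw [Polynomial.map_C]
    congr 1
    simp [sD]
    ring
  have c3 : (C (3 * ((Y.n + 2 : ℕ) : ℤ) - 1)).map (Int.castRingHom ℝ) =
      C (((sD Y.n : ℕ) : ℝ) + ((Y.n + 2 : ℕ) : ℝ) - 1) := by
    rw [Polynomial.map_C]
    congr 1
    simp [sD]
    ring
  rw [Polynomial.map_mul, Polynomial.map_mul, Polynomial.map_mul, Polynomial.map_pow,
    Polynomial.map_pow, Polynomial.map_pow, Polynomial.map_add, Polynomial.map_sub,
    Polynomial.map_sub, Polynomial.map_X, c1, c2, c3]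

end

/-! ### Isomorphism -/

theorem mem_map {V W : Type} {n : ℕ} {G : SimpleGraph V} {H : SimpleGraph W} (e : G ≃g H)
    (p : Pt V) (b : Bk V n) : mem H (Sum.map e id p)
      (Sum.map (fun x : V × V × Fin (4 + n) => (e x.1, e x.2.1, x.2.2))
        (Sum.map (fun x : V × Fin (8 + sA n) => (e x.1, x.2)) id) b) ↔ mem G p b := by
  have two : ∀ i : Fin 2, i = 0 ∨ i = 1 := fun i => Fin.exists_fin_two.1 ⟨i, rfl⟩
  rcases p with x | i
  · rcases b with ⟨u, w, t⟩ | ⟨u, t⟩ | t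
    · simp only [Sum.map_inl, mem_ll, e.injective.eq_iff]
    · simp only [Sum.map_inl, Sum.map_inr, mem_lm, e.injective.eq_iff]
    · simp only [Sum.map_inl, Sum.map_inr, id, mem_lr]
  · rcases b with ⟨u, w, t⟩ | ⟨u, t⟩ | t
    · rcases two i with rfl | rfl
      · simp only [Sum.map_inl, Sum.map_inr, id, mem_0l, e.map_adj_iff]
      · simp only [Sum.map_inl, Sum.map_inr, id, mem_1l, e.map_adj_iff]
    · rcases two i with rfl | rfl
      · simp only [Sum.map_inl, Sum.map_inr, id, mem_0m]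
      · simp only [Sum.map_inl, Sum.map_inr, id, mem_1m]
    · rcases two i with rfl | rfl
      · simp only [Sum.map_inr, id, mem_0r]
      · simp only [Sum.map_inr, id, mem_1r]

theorem gam_map {V W : Type} (n : ℕ) {G : SimpleGraph V} {H : SimpleGraph W} (e : G ≃g H) :
    Nonempty (gam n G ≃g gam n H) := by
  refine ⟨⟨biV n e.toEquiv (fun _ => e.toEquiv), ?_⟩⟩
  rintro (p | b) (q | c)
  · have : (biV n e.toEquiv (fun _ => e.toEquiv) (.inl p) = biV n e.toEquiv (fun _ => e.toEquiv)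
        (.inl q)) ↔ (Sum.inl p : Pt V ⊕ Bk V n) = .inl q := Equiv.apply_eq_iff_eq _
    change ¬ (_ = _) ↔ ¬ (_ = _)
    have h1 : ((Sum.map e id p : Pt W) = Sum.map e id q) ↔ p = q := by
      constructor
      · intro h
        have : (biV n e.toEquiv (fun _ => e.toEquiv) (.inl p)) = biV n e.toEquiv
            (fun _ => e.toEquiv) (.inl q) := congrArg Sum.inl h
        exact Sum.inl_injective ((Equiv.apply_eq_iff_eq _).1 this)
      · rintro rfl; rfl
    exact not_congr h1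
  · exact mem_map e p c
  · exact mem_map e q b
  · exact ⟨fun h => absurd h (gam_rr _ _ _), fun h => absurd h (gam_rr _ _ _)⟩

theorem fgam_iso {A B : FinGraph} (hn : A.n = B.n) (h5 : 5 ≤ A.n) :
    IsoF (fgam A) (fgam B) ↔ IsoF A B := by
  obtain ⟨m, G⟩ := A
  obtain ⟨m', H⟩ := B
  have hn' : m = m' := hn
  subst hn'
  constructor
  · rintro ⟨e⟩
    exact recover (n := m) (by simpa using h5) G H
      ((fgamIso ⟨m, H⟩).comp (e.comp (fgamIso ⟨m, G⟩).symm))
  · rintro ⟨e⟩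
    obtain ⟨f⟩ := gam_map m e
    exact ⟨(fgamIso ⟨m, H⟩).symm.comp (f.comp (fgamIso ⟨m, G⟩))⟩

/-! ### The reduction -/

/-- the reduction -/
noncomputable def red4 (p : FinGraph × FinGraph) : FinGraph × FinGraph :=
  (fgam (red p).1, fgam (red p).2)

theorem poly_red4 : Poly red4 :=
  Poly.pair (poly_fgam (Poly.fst poly_red)) (poly_fgam (Poly.snd poly_red))

theorem red_size (p : FinGraph × FinGraph) : (red p).1.n = p.1.n + p.2.n +
    20 * ((p.1.n + p.2.n + 6) * (p.1.n + p.2.n + 6)) + 4 := by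
  have hn : (red p).1.n = (p.1.n + 1) + (10 * ((p.1.n + p.2.n + 6) * (p.1.n + p.2.n + 6)) + 1) +
      ((p.2.n + 1) + (10 * ((p.1.n + p.2.n + 6) * (p.1.n + p.2.n + 6)) + 1)) := rfl
  rw [hn]
  ring

theorem red4_iso (p : FinGraph × FinGraph) : IsoF (red4 p).1 (red4 p).2 ↔ IsoF p.1 p.2 := by
  rw [← red_iso p]
  refine fgam_iso (red_n p) ?_
  rw [red_size]
  nlinarith [Nat.zero_le (p.1.n + p.2.n)]

theorem size_aux (s k : ℕ) (hk : (17 * k) ^ 6 ≤ nV (s + 20 * ((s + 6) * (s + 6)) + 4)) :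
    (2 * k + 1) + 1 < s + 6 := by
  by_contra hcon
  rw [nV_eq] at hk
  have h2 : 2 ≤ k := by omega
  have h3 : s + 6 ≤ 3 * k := by omega
  have h4 : (s + 6) * (s + 6) ≤ (3 * k) * (3 * k) := Nat.mul_le_mul h3 h3
  have h5 : s + 20 * ((s + 6) * (s + 6)) + 4 ≤ 189 * k ^ 2 := by nlinarith
  generalize s + 20 * ((s + 6) * (s + 6)) + 4 = n at *
  have h6 : n ^ 2 ≤ (189 * k ^ 2) ^ 2 := Nat.pow_le_pow_left h5 2
  have h7 : n ^ 3 ≤ (189 * k ^ 2) ^ 3 := Nat.pow_le_pow_left h5 3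
  have h8 : 4 ≤ k ^ 2 := by nlinarith
  have h9 : 4 * k ^ 4 ≤ k ^ 6 := by
    calc 4 * k ^ 4 ≤ k ^ 2 * k ^ 4 := Nat.mul_le_mul_right _ h8
      _ = k ^ 6 := by ring
  have h10 : 4 * k ^ 2 ≤ k ^ 4 := by
    calc 4 * k ^ 2 ≤ k ^ 2 * k ^ 2 := Nat.mul_le_mul_right _ h8
      _ = k ^ 4 := by ring
  have e1 : (17 * k) ^ 6 = 24137569 * k ^ 6 := by ring
  have e2 : (189 * k ^ 2) ^ 2 = 35721 * k ^ 4 := by ring
  have e3 : (189 * k ^ 2) ^ 3 = 6751269 * k ^ 6 := by ring
  rw [e1] at hk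
  rw [e2] at h6
  rw [e3] at h7
  omega

theorem red4_wl (p : FinGraph × FinGraph) (k : ℕ) (hk : (17 * k) ^ 6 ≤ (red4 p).1.n) :
    WLEquivalent k (red4 p).1.graph (red4 p).2.graph := by
  have hs : (2 * k + 1) + 1 < p.1.n + p.2.n + 6 := by
    apply size_aux
    rw [← red_size]
    exact hk
  have hg := tfin_game (p.1.n + p.2.n) (2 * k + 1) hs
  unfold red4 red fF
  generalize hX : tfin 0 (p.1.n + p.2.n) = X at *
  generalize hY : tfin 1 (p.1.n + p.2.n) = Y at *
  have hXY : X.n = Y.n := by rw [← hX, ← hY]; rfl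
  have h1 : GameF (2 * k + 1) (fsum (fP p.1 X) (fP p.2 Y)) (fsum (fP p.1 Y) (fP p.2 Y)) :=
    (hg.P p.1).sum_right _
  have h2 : GameF (2 * k + 1) (fsum (fP p.1 Y) (fP p.2 X)) (fsum (fP p.1 Y) (fP p.2 Y)) :=
    (hg.P p.2).sum_left _
  have n1 : (fsum (fP p.1 X) (fP p.2 Y)).n = (fsum (fP p.1 Y) (fP p.2 Y)).n := by
    change (p.1.n + 1 + (X.n + 1)) + (p.2.n + 1 + (Y.n + 1)) =
      (p.1.n + 1 + (Y.n + 1)) + (p.2.n + 1 + (Y.n + 1))
    rw [hXY]
  have n2 : (fsum (fP p.1 Y) (fP p.2 X)).n = (fsum (fP p.1 Y) (fP p.2 Y)).n := by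
    change (p.1.n + 1 + (Y.n + 1)) + (p.2.n + 1 + (X.n + 1)) =
      (p.1.n + 1 + (Y.n + 1)) + (p.2.n + 1 + (Y.n + 1))
    rw [hXY]
  have g1 := GameF.gam h1 n1
  have g2 := GameF.gam h2 n2
  exact wlEquivalent_trans g1.wl (wlEquivalent_symm g2.wl)

/-- The two graphs have the same number `N` of vertices and the same spectrum, with exactly four
distinct eigenvalues, all of them integers; they are connected split graphs, and for no
`k ≤ N ^ (1 / 6) / 17` does the `k`-dimensional Weisfeiler-Leman method distinguish them. -/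
def Alike (p : FinGraph × FinGraph) : Prop :=
  p.1.n = p.2.n ∧ (∃ m, HasSpec m p.1 ∧ HasSpec m p.2) ∧
    (p.1.graph.Connected ∧ p.2.graph.Connected) ∧ (IsSplit p.1.graph ∧ IsSplit p.2.graph) ∧
    ∀ k : ℕ, (17 * k) ^ 6 ≤ p.1.n → WLEquivalent k p.1.graph p.2.graph

theorem isSplit_iso {V W : Type} {G : SimpleGraph V} {H : SimpleGraph W} (e : G ≃g H)
    (h : IsSplit H) : IsSplit G := by
  obtain ⟨C, h1, h2⟩ := h
  refine ⟨e ⁻¹' C, ?_, ?_⟩
  · intro x hx y hy hxy
    exact e.map_adj_iff.1 (h1 hx hy (fun h => hxy (e.injective h)))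
  · intro x hx y hy hxy h
    exact h2 hx hy (fun h => hxy (e.injective h)) (e.map_adj_iff.2 h)

theorem alike_red4 (p : FinGraph × FinGraph) : Alike (red4 p) := by
  have hn := red_n p
  have hs : 1 ≤ (red p).1.n := by rw [red_size]; omega
  have conn : ∀ Y : FinGraph, 1 ≤ Y.n → (fgam Y).graph.Connected := by
    intro Y hY
    have : Nonempty (Fin Y.n) := ⟨⟨0, hY⟩⟩
    exact conn_of_iso (fgamIso Y) (connected_gam Y.graph)
  refine ⟨?_, ⟨(red p).1.n + 2, hasSpec_fgam _ hs, ?_⟩, ⟨conn _ hs, conn _ (hn ▸ hs)⟩,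
    ⟨isSplit_iso (fgamIso _) (isSplit_gam _), isSplit_iso (fgamIso _) (isSplit_gam _)⟩,
    fun k hk => red4_wl p k hk⟩
  · change nV (red p).1.n = nV (red p).2.n
    rw [hn]
  · have h := hasSpec_fgam (red p).2 (hn ▸ hs)
    rw [← hn] at h
    exact h

/-- the raw reduction: what is no code of a pair of graphs is sent to a fixed pair -/
noncomputable def raw4 (x : List Bool) : List Bool :=
  bits (match unbits (FinGraph × FinGraph) x with
    | none => red4 (fone, fplus fone)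
    | some p => red4 p)

theorem polyTime_raw4 : PolyTime raw4 := by
  refine polyTime_bits ?_
  have e : Poly (fun p : List Bool × (FinGraph × FinGraph) => red4 p.2) :=
    Poly.comp (g := red4) poly_red4 (Poly.snd Poly.id)
  refine Poly.congr (Poly.optCases (o := fun x => unbits (FinGraph × FinGraph) x)
    (g := fun _ => red4 (fone, fplus fone)) (h := fun _ p => red4 p) poly_unbits
    (NPC.Poly.const _) e) fun x => ?_
  cases unbits (FinGraph × FinGraph) x <;> rfl

theorem raw4_bits (p : FinGraph × FinGraph) : raw4 (bits p) = bits (red4 p) := by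
  unfold raw4
  rw [unbits_bits]

theorem raw4_none {x : List Bool} (h : unbits (FinGraph × FinGraph) x = none) :
    raw4 x = bits (red4 (fone, fplus fone)) := by
  unfold raw4
  rw [h]

theorem not_iso4 : ¬ IsoF (red4 (fone, fplus fone)).1 (red4 (fone, fplus fone)).2 := by
  rw [red4_iso]
  rintro ⟨e⟩
  have h1 : Fintype.card (Fin 1) = Fintype.card (Fin (1 + 1)) := Fintype.card_congr e.toEquiv
  simp at h1

/-- **The hard core.** -/
theorem four_core :
    (∃ F : List Bool → List Bool, PolyTime F ∧ ∀ A B : FinGraph, ∃ A' B' : FinGraph,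
      F (bits (A, B)) = bits (A', B') ∧ Alike (A', B') ∧ (GIso (A', B') ↔ GIso (A, B))) ∧
    (InPP GIso ↔ ∃ D : List Bool → List Bool, PolyTime D ∧ ∀ A B : FinGraph,
      Alike (A, B) → (D (bits (A, B)) = [true] ↔ GIso (A, B))) := by
  refine ⟨⟨raw4, polyTime_raw4, fun A B => ?_⟩, ?_, ?_⟩
  · exact ⟨(red4 (A, B)).1, (red4 (A, B)).2, raw4_bits _, alike_red4 _, red4_iso _⟩
  · intro h
    obtain ⟨V, hV, hV'⟩ := h.exists_test
    exact ⟨V, hV, fun A B _ => (hV' (A, B)).symm⟩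
  · rintro ⟨D, hD, hD'⟩
    refine ⟨fun x => D (raw4 x), H642R2.TMSim.polyTime_comp hD polyTime_raw4, fun x => ?_⟩
    rw [mem_lang_iff]
    change _ ↔ D (raw4 x) = [true]
    cases hx : unbits (FinGraph × FinGraph) x with
    | none =>
      rw [raw4_none hx]
      have h1 := hD' (red4 (fone, fplus fone)).1 (red4 (fone, fplus fone)).2 (alike_red4 _)
      constructor
      · rintro ⟨a, ha, _⟩
        exact absurd ha (by simp)
      · intro h
        exact absurd (h1.1 h) not_iso4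
    | some p =>
      have e1 : raw4 x = bits (red4 p) := by
        unfold raw4
        rw [hx]
      rw [e1]
      have h1 := hD' (red4 p).1 (red4 p).2 (alike_red4 _)
      have h2 : GIso ((red4 p).1, (red4 p).2) ↔ GIso p := red4_iso p
      constructor
      · rintro ⟨a, ha, h⟩
        cases ha
        exact h1.2 (h2.2 h)
      · intro h
        exact ⟨p, rfl, h2.1 (h1.1 h)⟩

end Pool.Agent.Helper55.GI
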