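import Pool.Agent.Helper55.GI.Encode

/-!
# The bijective game on the new graphs
-/

set_option autoImplicit false

namespace Pool.Agent.Helper55.GI

open SimpleGraph Pool.Agent.H692R2 Pool.Agent.W185.SRG Pool.Agent.Y598.Circ
open Pool.Agent.NPC.R542.GI

variable {V W : Type} {n : ℕ}

/-- The two vertices of the new graphs are described in the same way by the two tuples. -/
def Rel {p : ℕ} (T : Fin p → V) (T' : Fin p → W) :
    (Pt V ⊕ Bk V n) → (Pt W ⊕ Bk W n) → Prop
  | .inl (.inl x), .inl (.inl y) => ∃ a, x = T a ∧ y = T' a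
  | .inl (.inr i), .inl (.inr j) => i = j
  | .inr (.inl (u, w, t)), .inr (.inl (u', w', t')) =>
      ∃ a b, u = T a ∧ w = T b ∧ u' = T' a ∧ w' = T' b ∧ t = t'
  | .inr (.inr (.inl (u, t))), .inr (.inr (.inl (u', t'))) => ∃ a, u = T a ∧ u' = T' a ∧ t = t'
  | .inr (.inr (.inr t)), .inr (.inr (.inr t')) => t = t'
  | _, _ => False

theorem Rel.mono {p q : ℕ} {T : Fin p → V} {T' : Fin p → W} {U : Fin q → V} {U' : Fin q → W}
    (σ : Fin p → Fin q) (h1 : ∀ a, U (σ a) = T a) (h2 : ∀ a, U' (σ a) = T' a)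
    {x : Pt V ⊕ Bk V n} {y : Pt W ⊕ Bk W n} (h : Rel T T' x y) : Rel U U' x y := by
  rcases x with (x | i) | (⟨u, w, t⟩ | ⟨u, t⟩ | t) <;>
    rcases y with (y | j) | (⟨u', w', t'⟩ | ⟨u', t'⟩ | t') <;> try exact h.elim
  · obtain ⟨a, e1, e2⟩ := h
    exact ⟨σ a, by rw [h1, e1], by rw [h2, e2]⟩
  · exact h
  · obtain ⟨a, b, e1, e2, e3, e4, e5⟩ := h
    exact ⟨σ a, σ b, by rw [h1, e1], by rw [h1, e2], by rw [h2, e3], by rw [h2, e4], e5⟩
  · obtain ⟨a, e1, e2, e3⟩ := h
    exact ⟨σ a, by rw [h1, e1], by rw [h2, e2], e3⟩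
  · exact h

/-- two entries suffice -/
theorem Rel.two {p : ℕ} {T : Fin p → V} {T' : Fin p → W} (hp : 0 < p)
    {x : Pt V ⊕ Bk V n} {y : Pt W ⊕ Bk W n} (h : Rel T T' x y) :
    ∃ τ : Fin 2 → Fin p, Rel (T ∘ τ) (T' ∘ τ) x y := by
  rcases x with (x | i) | (⟨u, w, t⟩ | ⟨u, t⟩ | t) <;>
    rcases y with (y | j) | (⟨u', w', t'⟩ | ⟨u', t'⟩ | t') <;> try exact h.elim
  · obtain ⟨a, e1, e2⟩ := h
    exact ⟨fun _ => a, 0, e1, e2⟩
  · exact ⟨fun _ => ⟨0, hp⟩, h⟩
  · obtain ⟨a, b, e1, e2, e3, e4, e5⟩ := h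
    exact ⟨![a, b], 0, 1, e1, e2, e3, e4, e5⟩
  · obtain ⟨a, e1, e2, e3⟩ := h
    exact ⟨fun _ => a, 0, e1, e2, e3⟩
  · exact ⟨fun _ => ⟨0, hp⟩, h⟩

theorem Rel.mem {G : SimpleGraph V} {H : SimpleGraph W} {p : ℕ} {T : Fin p → V} {T' : Fin p → W}
    (h1 : ∀ a b, T a = T b ↔ T' a = T' b) (h2 : ∀ a b, G.Adj (T a) (T b) ↔ H.Adj (T' a) (T' b))
    {q : Pt V} {q' : Pt W} {b : Bk V n} {b' : Bk W n} (hq : Rel (n := n) T T' (.inl q) (.inl q'))
    (hb : Rel T T' (.inr b) (.inr b')) : GI.mem G q b ↔ GI.mem H q' b' := by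
  rcases q with x | i <;> rcases q' with x' | i' <;> try exact hq.elim
  · obtain ⟨a, rfl, rfl⟩ := hq
    rcases b with ⟨u, w, t⟩ | ⟨u, t⟩ | t <;> rcases b' with ⟨u', w', t'⟩ | ⟨u', t'⟩ | t' <;>
      try exact hb.elim
    · obtain ⟨c, d, rfl, rfl, rfl, rfl, rfl⟩ := hb
      simp only [mem_ll, h1]
    · obtain ⟨c, rfl, rfl, rfl⟩ := hb
      simp only [mem_lm, h1]
    · have hb' : t = t' := hb
      subst hb'
      simp only [mem_lr]
  · have hi : i = i' := hq
    subst hi
    rcases b with ⟨u, w, t⟩ | ⟨u, t⟩ | t <;> rcases b' with ⟨u', w', t'⟩ | ⟨u', t'⟩ | t' <;>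
      try exact hb.elim
    · obtain ⟨c, d, rfl, rfl, rfl, rfl, rfl⟩ := hb
      rcases Fin.exists_fin_two.1 ⟨i, rfl⟩ with hi | hi <;> subst hi
      · simp only [mem_0l, h2]
      · simp only [mem_1l, h2]
    · obtain ⟨c, rfl, rfl, rfl⟩ := hb
      rcases Fin.exists_fin_two.1 ⟨i, rfl⟩ with hi | hi <;> subst hi
      · simp only [mem_0m]
      · simp only [mem_1m]
    · have hb' : t = t' := hb
      subst hb'
      rcases Fin.exists_fin_two.1 ⟨i, rfl⟩ with hi | hi <;> subst hi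
      · simp only [mem_0r]
      · simp only [mem_1r]

theorem Rel.pt {p : ℕ} {T : Fin p → V} {T' : Fin p → W}
    (h1 : ∀ a b, T a = T b ↔ T' a = T' b)
    {q r : Pt V} {q' r' : Pt W} (hq : Rel (n := n) T T' (.inl q) (.inl q'))
    (hr : Rel (n := n) T T' (.inl r) (.inl r')) : q = r ↔ q' = r' := by
  rcases q with x | i <;> rcases q' with x' | i' <;> try exact hq.elim
  · obtain ⟨a, rfl, rfl⟩ := hq
    rcases r with y | j <;> rcases r' with y' | j' <;> try exact hr.elim
    · obtain ⟨b, rfl, rfl⟩ := hr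
      simp [h1]
    · simp
  · have hi : i = i' := hq
    subst hi
    rcases r with y | j <;> rcases r' with y' | j' <;> try exact hr.elim
    · simp
    · have hj : j = j' := hr
      subst hj
      simp

theorem Rel.bk {p : ℕ} {T : Fin p → V} {T' : Fin p → W}
    (h1 : ∀ a b, T a = T b ↔ T' a = T' b)
    {b c : Bk V n} {b' c' : Bk W n} (hb : Rel (n := n) T T' (.inr b) (.inr b'))
    (hc : Rel (n := n) T T' (.inr c) (.inr c')) : b = c ↔ b' = c' := by
  rcases b with ⟨u, w, t⟩ | ⟨u, t⟩ | t <;> rcases b' with ⟨u', w', t'⟩ | ⟨u', t'⟩ | t' <;>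
      try exact hb.elim
  · obtain ⟨_, _, rfl, rfl, rfl, rfl, rfl⟩ := hb
    rcases c with ⟨u, w, t⟩ | ⟨u, t⟩ | t <;> rcases c' with ⟨u', w', t'⟩ | ⟨u', t'⟩ | t' <;>
      try exact hc.elim
    · obtain ⟨_, _, rfl, rfl, rfl, rfl, rfl⟩ := hc
      simp [h1]
    · simp
    · simp
  · obtain ⟨_, rfl, rfl, rfl⟩ := hb
    rcases c with ⟨u, w, t⟩ | ⟨u, t⟩ | t <;> rcases c' with ⟨u', w', t'⟩ | ⟨u', t'⟩ | t' <;>
      try exact hc.elim
    · simp
    · obtain ⟨_, rfl, rfl, rfl⟩ := hc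
      simp [h1]
    · simp
  · have hb' : t = t' := hb
    subst hb'
    rcases c with ⟨u, w, s⟩ | ⟨u, s⟩ | s <;> rcases c' with ⟨u', w', s'⟩ | ⟨u', s'⟩ | s' <;>
      try exact hc.elim
    · simp
    · simp
    · have hc' : s = s' := hc
      subst hc'
      simp

theorem Rel.pair {G : SimpleGraph V} {H : SimpleGraph W} {p : ℕ} {T : Fin p → V} {T' : Fin p → W}
    (h1 : ∀ a b, T a = T b ↔ T' a = T' b) (h2 : ∀ a b, G.Adj (T a) (T b) ↔ H.Adj (T' a) (T' b))
    {x y : Pt V ⊕ Bk V n} {x' y' : Pt W ⊕ Bk W n} (hx : Rel T T' x x') (hy : Rel T T' y y') :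
    (x = y ↔ x' = y') ∧ ((gam n G).Adj x y ↔ (gam n H).Adj x' y') := by
  rcases x with q | b <;> rcases x' with q' | b'
  · rcases y with r | c <;> rcases y' with r' | c'
    · have h := Rel.pt h1 hx hy
      refine ⟨by simpa using h, ?_⟩
      rw [gam_ll, gam_ll, ne_eq, ne_eq, h]
    · rcases r with r | r <;> exact hy.elim
    · rcases r' with r | r <;> rcases c with c | c | c <;> exact hy.elim
    · refine ⟨by simp, ?_⟩
      rw [gam_lr, gam_lr]
      exact Rel.mem h1 h2 hx hy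
  · rcases q with r | r <;> exact hx.elim
  · rcases q' with r | r <;> rcases b with c | c | c <;> exact hx.elim
  · rcases y with r | c <;> rcases y' with r' | c'
    · refine ⟨by simp, ?_⟩
      rw [gam_rl, gam_rl]
      exact Rel.mem h1 h2 hy hx
    · rcases r with r | r <;> exact hy.elim
    · rcases r' with r | r <;> rcases c with c | c | c <;> exact hy.elim
    · have h := Rel.bk h1 hx hy
      refine ⟨by simpa using h, ?_⟩
      exact ⟨fun h => absurd h (gam_rr _ _ _), fun h => absurd h (gam_rr _ _ _)⟩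

/-- The bijection on blocks of the first kind. -/
def biA (φ : V ≃ W) (ψ : V → V ≃ W) : V × V × Fin (4 + n) ≃ W × W × Fin (4 + n) where
  toFun x := (φ x.1, ψ x.1 x.2.1, x.2.2)
  invFun y := (φ.symm y.1, (ψ (φ.symm y.1)).symm y.2.1, y.2.2)
  left_inv x := by simp
  right_inv y := by simp

/-- The bijection on vertices. -/
def biV (n : ℕ) (φ : V ≃ W) (ψ : V → V ≃ W) : (Pt V ⊕ Bk V n) ≃ (Pt W ⊕ Bk W n) :=
  Equiv.sumCongr (Equiv.sumCongr φ (Equiv.refl _)) (Equiv.sumCongr (biA φ ψ)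
    (Equiv.sumCongr (Equiv.prodCongr φ (Equiv.refl _)) (Equiv.refl _)))

/-- **The game on the new graphs.** -/
def gamGame [Fintype V] [Fintype W] {G : SimpleGraph V} {H : SimpleGraph W} {k : ℕ}
    (A : Game (2 * k + 1) G H) : Game k (gam n G) (gam n H) where
  Good m S S' := ∃ (p : ℕ) (T : Fin p → V) (T' : Fin p → W), p ≤ m * 2 ∧ A.Good p T T' ∧
    ∀ i, Rel T T' (S i) (S' i)
  zero S S' := ⟨0, Fin.elim0, Fin.elim0, le_rfl, A.zero _ _, fun i => i.elim0⟩
  ext m hm S S' := by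
    rintro ⟨p, T, T', hp, hG, hS⟩
    obtain ⟨φ, hφ⟩ := A.ext p (by omega) T T' hG
    choose ψ hψ using fun x => A.ext (p + 1) (by omega) _ _ (hφ x)
    refine ⟨biV n φ ψ, ?_⟩
    rintro ((x | i) | (⟨u, w, t⟩ | ⟨u, t⟩ | t))
    · refine ⟨p + 1, _, _, by omega, hφ x, ?_⟩
      intro i
      induction i using Fin.lastCases with
      | last =>
        rw [Fin.snoc_last, Fin.snoc_last]
        exact ⟨Fin.last p, by rw [Fin.snoc_last], by rw [Fin.snoc_last]⟩
      | cast i =>
        rw [Fin.snoc_castSucc, Fin.snoc_castSucc]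
        exact (hS i).mono Fin.castSucc (fun a => by rw [Fin.snoc_castSucc])
          (fun a => by rw [Fin.snoc_castSucc])
    · refine ⟨p, T, T', by omega, hG, ?_⟩
      intro j
      induction j using Fin.lastCases with
      | last =>
        rw [Fin.snoc_last, Fin.snoc_last]
        exact rfl
      | cast j =>
        rw [Fin.snoc_castSucc, Fin.snoc_castSucc]
        exact hS j
    · refine ⟨p + 1 + 1, _, _, by omega, hψ u w, ?_⟩
      intro i
      induction i using Fin.lastCases with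
      | last =>
        rw [Fin.snoc_last, Fin.snoc_last]
        refine ⟨(Fin.last p).castSucc, Fin.last (p + 1), ?_, ?_, ?_, ?_, rfl⟩
        · rw [Fin.snoc_castSucc, Fin.snoc_last]
        · rw [Fin.snoc_last]
        · rw [Fin.snoc_castSucc, Fin.snoc_last]
        · rw [Fin.snoc_last]
      | cast i =>
        rw [Fin.snoc_castSucc, Fin.snoc_castSucc]
        exact (hS i).mono (fun a => a.castSucc.castSucc)
          (fun a => by rw [Fin.snoc_castSucc, Fin.snoc_castSucc])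
          (fun a => by rw [Fin.snoc_castSucc, Fin.snoc_castSucc])
    · refine ⟨p + 1, _, _, by omega, hφ u, ?_⟩
      intro i
      induction i using Fin.lastCases with
      | last =>
        rw [Fin.snoc_last, Fin.snoc_last]
        exact ⟨Fin.last p, by rw [Fin.snoc_last], by rw [Fin.snoc_last], rfl⟩
      | cast i =>
        rw [Fin.snoc_castSucc, Fin.snoc_castSucc]
        exact (hS i).mono Fin.castSucc (fun a => by rw [Fin.snoc_castSucc])
          (fun a => by rw [Fin.snoc_castSucc])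
    · refine ⟨p, T, T', by omega, hG, ?_⟩
      intro j
      induction j using Fin.lastCases with
      | last =>
        rw [Fin.snoc_last, Fin.snoc_last]
        exact rfl
      | cast j =>
        rw [Fin.snoc_castSucc, Fin.snoc_castSucc]
        exact hS j
  restr m l σ S S' := by
    rintro ⟨p, T, T', hp, hG, hS⟩
    rcases Nat.lt_or_ge (l * 2) p with hlp | hlp
    · choose τ hτ using fun i : Fin l => Rel.two (by omega) (hS (σ i))
      refine ⟨l * 2, T ∘ fun j => τ j.divNat j.modNat, T' ∘ fun j => τ j.divNat j.modNat, le_rfl,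
        A.restr p _ _ T T' hG, ?_⟩
      intro i
      have hdm : ∀ a : Fin 2, (finProdFinEquiv (i, a)).divNat = i ∧
          (finProdFinEquiv (i, a)).modNat = a := by
        intro a
        have := finProdFinEquiv.symm_apply_apply (i, a)
        exact ⟨congrArg Prod.fst this, congrArg Prod.snd this⟩
      refine (hτ i).mono (fun a => finProdFinEquiv (i, a)) (fun a => ?_) (fun a => ?_)
      · simp only [Function.comp_apply, (hdm a).1, (hdm a).2]
      · simp only [Function.comp_apply, (hdm a).1, (hdm a).2]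
    · exact ⟨p, T, T', hlp, hG, fun i => hS (σ i)⟩
  iso S S' := by
    rintro ⟨p, T, T', hp, hG, hS⟩
    rcases Nat.eq_zero_or_pos k with hk | hk
    · subst hk
      refine Prod.ext ?_ ?_ <;> (funext i; exact i.elim0)
    · have key : ∀ a b : Fin p, (T a = T b ↔ T' a = T' b) ∧
          (G.Adj (T a) (T b) ↔ H.Adj (T' a) (T' b)) := fun a b =>
        game_pair A ⟨0, by omega⟩ ⟨1, by omega⟩ (by simp) hG a b
      unfold isoType
      refine Prod.ext ?_ ?_
      · funext i j
        exact propext (Rel.pair (fun a b => (key a b).1) (fun a b => (key a b).2) (hS i) (hS j)).1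
      · funext i j
        exact propext (Rel.pair (fun a b => (key a b).1) (fun a b => (key a b).2) (hS i) (hS j)).2

theorem GameF.gam {X Y : FinGraph} {k : ℕ} (h : GameF (2 * k + 1) X Y) (hn : X.n = Y.n) :
    GameF k (fgam X) (fgam Y) := by
  obtain ⟨m, G⟩ := X
  obtain ⟨m', H⟩ := Y
  have hn' : m = m' := hn
  subst hn'
  obtain ⟨A⟩ := h
  exact ⟨gameTransport (gamGame A) (fgamIso ⟨m, G⟩) (fgamIso ⟨m, H⟩)⟩

end Pool.Agent.Helper55.GI
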