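import Pool.Agent.Helper55.GI.Constr

/-!
# The new graph determines the old one, is connected and split
-/

set_option autoImplicit false

namespace Pool.Agent.Helper55.GI

open SimpleGraph

/-- The vertices can be partitioned into a clique and an independent set. -/
def IsSplit {V : Type} (G : SimpleGraph V) : Prop :=
  ∃ C : Set V, G.IsClique C ∧ G.IsIndepSet Cᶜ

variable {V W : Type} {n : ℕ}

/-- the block of all points but the last -/
def Lb (V : Type) (n : ℕ) : Bk V n := .inr (.inr ⟨0, by omega⟩)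
/-- the block of all vertices -/
def Mb (V : Type) (n : ℕ) : Bk V n := .inr (.inr ⟨1, by omega⟩)

theorem gam_ll (G : SimpleGraph V) (p q : Pt V) :
    (gam n G).Adj (.inl p) (.inl q) ↔ p ≠ q := Iff.rfl
theorem gam_lr (G : SimpleGraph V) (p : Pt V) (b : Bk V n) :
    (gam n G).Adj (.inl p) (.inr b) ↔ mem G p b := Iff.rfl
theorem gam_rl (G : SimpleGraph V) (p : Pt V) (b : Bk V n) :
    (gam n G).Adj (.inr b) (.inl p) ↔ mem G p b := Iff.rfl
theorem gam_rr (G : SimpleGraph V) (b c : Bk V n) :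
    ¬ (gam n G).Adj (.inr b) (.inr c) := fun h => h

theorem mem_ll (G : SimpleGraph V) (x u w : V) (t : Fin (4 + n)) :
    mem (n := n) G (.inl x) (.inl (u, w, t)) ↔ (t.val = 1 ∧ x = u) ∨ (t.val = 2 ∧ x = w) ∨
      (t.val ≠ 1 ∧ t.val ≠ 2 ∧ t.val ≠ 3 ∧ (x = u ∨ x = w)) := by
  change (if t.val = 1 then x = u else if t.val = 2 then x = w else
          if t.val = 3 then False else (x = u ∨ x = w)) ↔ _
  split_ifs <;> grind
theorem mem_lm (G : SimpleGraph V) (x u : V) (t : Fin (8 + sA n)) :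
    mem (n := n) G (.inl x) (.inr (.inl (u, t))) ↔ x = u := Iff.rfl
theorem mem_lr (G : SimpleGraph V) (x : V) (t : Fin (2 + sD n + sB n + sC n)) :
    mem (n := n) G (.inl x) (.inr (.inr t)) ↔ t.val < 2 := Iff.rfl
theorem mem_0l (G : SimpleGraph V) (u w : V) (t : Fin (4 + n)) :
    mem (n := n) G (.inr 0) (.inl (u, w, t)) ↔ pat (G.Adj u w) t.val := Iff.rfl
theorem mem_1l (G : SimpleGraph V) (u w : V) (t : Fin (4 + n)) :
    mem (n := n) G (.inr 1) (.inl (u, w, t)) ↔ pat (¬ G.Adj u w) t.val := Iff.rfl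
theorem mem_0m (G : SimpleGraph V) (u : V) (t : Fin (8 + sA n)) :
    mem (n := n) G (.inr 0) (.inr (.inl (u, t))) ↔ t.val < 3 := Iff.rfl
theorem mem_1m (G : SimpleGraph V) (u : V) (t : Fin (8 + sA n)) :
    mem (n := n) G (.inr 1) (.inr (.inl (u, t))) ↔ 3 ≤ t.val ∧ t.val < 8 := Iff.rfl
theorem mem_0r (G : SimpleGraph V) (t : Fin (2 + sD n + sB n + sC n)) :
    mem (n := n) G (.inr 0) (.inr (.inr t)) ↔ t.val ≠ 1 ∧ t.val < 2 + sD n + sB n := Iff.rfl
theorem mem_1r (G : SimpleGraph V) (t : Fin (2 + sD n + sB n + sC n)) :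
    mem (n := n) G (.inr 1) (.inr (.inr t)) ↔
      (2 ≤ t.val ∧ t.val < 2 + sD n) ∨ 2 + sD n + sB n ≤ t.val := Iff.rfl

theorem isSplit_gam (G : SimpleGraph V) : IsSplit (gam n G) := by
  refine ⟨Set.range Sum.inl, ?_, ?_⟩
  · rintro _ ⟨p, rfl⟩ _ ⟨q, rfl⟩ h
    exact fun e => h (by rw [e])
  · rintro (p | b) hp (q | c) hq h
    · exact absurd ⟨p, rfl⟩ hp
    · exact absurd ⟨p, rfl⟩ hp
    · exact absurd ⟨q, rfl⟩ hq
    · exact fun h => h

theorem exists_mem [Nonempty V] (G : SimpleGraph V) (b : Bk V n) : ∃ p, mem G p b := by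
  rcases b with ⟨u, w, t⟩ | ⟨u, t⟩ | t
  · by_cases h : t.val = 3
    · by_cases h1 : G.Adj u w
      · exact ⟨.inr 0, (mem_0l G u w t).2 (Or.inl ⟨Or.inr h, h1⟩)⟩
      · exact ⟨.inr 1, (mem_1l G u w t).2 (Or.inl ⟨Or.inr h, h1⟩)⟩
    · by_cases h2 : t.val = 2
      · exact ⟨.inl w, (mem_ll G w u w t).2 (Or.inr (Or.inl ⟨h2, rfl⟩))⟩
      · by_cases h1 : t.val = 1
        · exact ⟨.inl u, (mem_ll G u u w t).2 (Or.inl ⟨h1, rfl⟩)⟩
        · exact ⟨.inl u, (mem_ll G u u w t).2 (Or.inr (Or.inr ⟨h1, h2, h, Or.inl rfl⟩))⟩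
  · exact ⟨.inl u, rfl⟩
  · by_cases h : t.val ≠ 1 ∧ t.val < 2 + sD n + sB n
    · exact ⟨.inr 0, (mem_0r G t).2 h⟩
    · by_cases h1 : t.val = 1
      · obtain ⟨v⟩ := ‹Nonempty V›
        exact ⟨.inl v, (mem_lr G v t).2 (by omega)⟩
      · exact ⟨.inr 1, (mem_1r G t).2 (by omega)⟩

theorem connected_gam [Nonempty V] (G : SimpleGraph V) : (gam n G).Connected := by
  have h1 : ∀ p : Pt V, (gam n G).Reachable (.inl p) (.inl (.inr 0)) := by
    intro p
    by_cases h : p = .inr 0
    · rw [h]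
    · exact Adj.reachable ((gam_ll G p (.inr 0)).2 h)
  have h2 : ∀ x, (gam n G).Reachable x (.inl (.inr 0)) := by
    rintro (p | b)
    · exact h1 p
    · obtain ⟨p, hp⟩ := exists_mem G b
      exact (Adj.reachable ((gam_rl G p b).2 hp)).trans (h1 p)
  have : Nonempty (Pt V ⊕ Bk V n) := ⟨.inl (.inr 0)⟩
  exact ⟨fun x y => (h2 x).trans (h2 y).symm⟩

/-! ### Recovering the graph -/

/-- two neighbours are distinct and not adjacent -/
def NS {U : Type} (K : SimpleGraph U) (x : U) : Prop :=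
  ∃ y z, y ≠ z ∧ K.Adj x y ∧ K.Adj x z ∧ ¬ K.Adj y z

theorem NS.map {U U' : Type} {K : SimpleGraph U} {K' : SimpleGraph U'} (φ : K ≃g K') {x : U}
    (h : NS K x) : NS K' (φ x) := by
  obtain ⟨y, z, h1, h2, h3, h4⟩ := h
  exact ⟨φ y, φ z, fun e => h1 (φ.injective e), φ.map_adj_iff.2 h2, φ.map_adj_iff.2 h3,
    fun e => h4 (φ.map_adj_iff.1 e)⟩

theorem NS_iff (G : SimpleGraph V) (x : Pt V ⊕ Bk V n) : NS (gam n G) x ↔ ∃ p, x = .inl p := by
  constructor
  · rintro ⟨y, z, h1, h2, h3, h4⟩
    rcases x with p | b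
    · exact ⟨p, rfl⟩
    · exfalso
      rcases y with q | c
      · rcases z with q' | c'
        · exact h4 fun e => h1 (by rw [e])
        · exact h3
      · exact h2
  · rintro ⟨p, rfl⟩
    rcases p with v | i
    · exact ⟨.inr (Lb V n), .inr (Mb V n), by simp [Lb, Mb], Nat.zero_lt_two, Nat.one_lt_two,
        gam_rr G _ _⟩
    · have hd : 4 ≤ sD n := by unfold sD; omega
      refine ⟨.inr (.inr (.inr ⟨2, by omega⟩)), .inr (.inr (.inr ⟨3, by omega⟩)), by simp, ?_, ?_,
        gam_rr G _ _⟩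
      · rcases Fin.exists_fin_two.1 ⟨i, rfl⟩ with hi | hi <;> subst hi
        · exact (mem_0r G _).2 ⟨by simp, by simp; omega⟩
        · exact (mem_1r G _).2 (Or.inl ⟨by simp, by simp; omega⟩)
      · rcases Fin.exists_fin_two.1 ⟨i, rfl⟩ with hi | hi <;> subst hi
        · exact (mem_0r G _).2 ⟨by simp, by simp; omega⟩
        · exact (mem_1r G _).2 (Or.inl ⟨by simp, by simp; omega⟩)

/-- at least five neighbours -/
def Big {U : Type} (K : SimpleGraph U) (x : U) : Prop :=
  ∃ f : Fin 5 → U, Function.Injective f ∧ ∀ i, K.Adj x (f i)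

theorem Big.map {U U' : Type} {K : SimpleGraph U} {K' : SimpleGraph U'} (φ : K ≃g K') {x : U}
    (h : Big K x) : Big K' (φ x) := by
  obtain ⟨f, h1, h2⟩ := h
  exact ⟨φ ∘ f, φ.injective.comp h1, fun i => φ.map_adj_iff.2 (h2 i)⟩

theorem big_LM [Fintype V] (hV : 5 ≤ Fintype.card V) (G : SimpleGraph V) :
    Big (gam n G) (.inr (Lb V n)) ∧ Big (gam n G) (.inr (Mb V n)) := by
  obtain ⟨e⟩ : Nonempty (Fin 5 ↪ V) := by
    rw [Function.Embedding.nonempty_iff_card_le, Fintype.card_fin]
    exact hV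
  constructor
  · refine ⟨fun i => .inl (.inl (e i)), fun i j h => ?_, fun i => ?_⟩
    · simpa using h
    · exact Nat.zero_lt_two
  · refine ⟨fun i => .inl (.inl (e i)), fun i j h => ?_, fun i => ?_⟩
    · simpa using h
    · exact Nat.one_lt_two

theorem not_big_of_subset {U : Type} {K : SimpleGraph U} {x : U} (l : List U) (hl : l.length ≤ 4)
    (h : ∀ y, K.Adj x y → y ∈ l) : ¬ Big K x := by
  classical
  rintro ⟨f, h1, h2⟩
  have h3 : (Finset.univ.image f).card = 5 := by
    rw [Finset.card_image_of_injective _ h1]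
    simp
  have h4 : Finset.univ.image f ⊆ l.toFinset := by
    intro y hy
    rw [Finset.mem_image] at hy
    obtain ⟨i, _, rfl⟩ := hy
    rw [List.mem_toFinset]
    exact h _ (h2 i)
  have h5 := Finset.card_le_card h4
  have h6 := List.toFinset_card_le l
  omega

theorem big_block (G : SimpleGraph V) (b : Bk V n) (h : Big (gam n G) (.inr b)) :
    b = Lb V n ∨ b = Mb V n := by
  rcases b with ⟨u, w, t⟩ | ⟨u, t⟩ | t
  · exfalso
    refine not_big_of_subset [.inl (.inl u), .inl (.inl w), .inl (.inr 0), .inl (.inr 1)]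
      (by simp) ?_ h
    rintro ((x | i) | c) hy
    · have := (mem_ll G x u w t).1 hy
      have h1 : x = u ∨ x = w := by tauto
      rcases h1 with rfl | rfl <;> simp
    · rcases Fin.exists_fin_two.1 ⟨i, rfl⟩ with hi | hi <;> subst hi <;> simp
    · exact absurd hy (gam_rr G _ _)
  · exfalso
    refine not_big_of_subset [.inl (.inl u), .inl (.inr 0), .inl (.inr 1)]
      (by simp) ?_ h
    rintro ((x | i) | c) hy
    · have h1 : x = u := (mem_lm G x u t).1 hy
      subst h1; simp
    · rcases Fin.exists_fin_two.1 ⟨i, rfl⟩ with hi | hi <;> subst hi <;> simp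
    · exact absurd hy (gam_rr G _ _)
  · by_cases h2 : t.val < 2
    · rcases Nat.lt_or_ge t.val 1 with h3 | h3
      · left
        have : t = ⟨0, by omega⟩ := Fin.ext (show t.val = 0 by omega)
        rw [this]; rfl
      · right
        have : t = ⟨1, by omega⟩ := Fin.ext (show t.val = 1 by omega)
        rw [this]; rfl
    · exfalso
      refine not_big_of_subset [.inl (.inr 0), .inl (.inr 1)] (by simp) ?_ h
      rintro ((x | i) | c) hy
      · exact absurd ((mem_lr G x t).1 hy) h2
      · rcases Fin.exists_fin_two.1 ⟨i, rfl⟩ with hi | hi <;> subst hi <;> simp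
      · exact absurd hy (gam_rr G _ _)

theorem adj_iff_block (G : SimpleGraph V) {u w : V} (huw : u ≠ w) : G.Adj u w ↔
    ∃ b : Bk V n, b ≠ Lb V n ∧ mem G (.inl u) b ∧ mem G (.inl w) b ∧ mem G (.inr 0) b := by
  constructor
  · intro h
    refine ⟨.inl (u, w, ⟨0, by omega⟩), by simp [Lb], ?_, ?_, ?_⟩
    · exact (mem_ll G _ _ _ _).2 (Or.inr (Or.inr ⟨by simp, by simp, by simp, Or.inl rfl⟩))
    · exact (mem_ll G _ _ _ _).2 (Or.inr (Or.inr ⟨by simp, by simp, by simp, Or.inr rfl⟩))
    · exact (mem_0l G _ _ _).2 (Or.inl ⟨Or.inl rfl, h⟩)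
  · rintro ⟨b, hb, h1, h2, h3⟩
    rcases b with ⟨a, c, t⟩ | ⟨a, t⟩ | t
    · rw [mem_ll] at h1 h2
      rw [mem_0l] at h3
      unfold pat at h3
      rcases h1 with ⟨e1, rfl⟩ | ⟨e1, rfl⟩ | ⟨e1, e2, e3, e4⟩
      · exfalso; rcases h2 with ⟨f1, f2⟩ | ⟨f1, f2⟩ | ⟨f1, f2, f3, f4⟩
        · exact huw f2.symm
        · omega
        · omega
      · exfalso; rcases h2 with ⟨f1, f2⟩ | ⟨f1, f2⟩ | ⟨f1, f2, f3, f4⟩
        · omega
        · exact huw f2.symm
        · omega
      · have h4 : w = a ∨ w = c := by tauto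
        have h5 : G.Adj a c := by
          rcases h3 with ⟨_, h⟩ | ⟨h, _⟩
          · exact h
          · omega
        rcases e4 with rfl | rfl <;> rcases h4 with h4 | h4
        · exact absurd h4.symm huw
        · rw [h4]; exact h5
        · rw [h4]; exact h5.symm
        · exact absurd h4.symm huw
    · rw [mem_lm] at h1 h2
      exact absurd (h1.trans h2.symm) huw
    · exfalso
      rw [mem_lr] at h1
      rw [mem_0r] at h3
      refine hb ?_
      have : t = ⟨0, by omega⟩ := Fin.ext (show t.val = 0 by omega)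
      rw [this]; rfl

/-- **The new graph determines the old one.** -/
theorem recover [Fintype V] (hV : 5 ≤ Fintype.card V)
    (G : SimpleGraph V) (H : SimpleGraph W) (φ : gam n G ≃g gam n H) : Nonempty (G ≃g H) := by
  -- points go to points, blocks to blocks
  have hp : ∀ p : Pt V, ∃ q : Pt W, φ (.inl p) = .inl q := by
    intro p
    exact (NS_iff H _).1 (((NS_iff G (.inl p)).2 ⟨p, rfl⟩).map φ)
  have hb : ∀ b : Bk V n, ∃ c : Bk W n, φ (.inr b) = .inr c := by
    intro b
    rcases h : φ (.inr b) with q | c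
    · exfalso
      have h1 : NS (gam n H) (φ (.inr b)) := by
        rw [h]
        exact (NS_iff H _).2 ⟨q, rfl⟩
      have h2 := h1.map φ.symm
      rw [φ.symm_apply_apply] at h2
      obtain ⟨p, hp⟩ := (NS_iff G _).1 h2
      simp at hp
    · exact ⟨c, rfl⟩
  choose f hf using hp
  choose g hg using hb
  have finj : Function.Injective f := by
    intro p q h
    have : φ (.inl p) = φ (.inl q) := by rw [hf, hf, h]
    exact Sum.inl_injective (φ.injective this)
  have fsurj : Function.Surjective f := by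
    intro q
    obtain ⟨x, hx⟩ := φ.surjective (.inl q)
    rcases x with p | b
    · rw [hf] at hx
      exact ⟨p, Sum.inl_injective hx⟩
    · rw [hg] at hx
      simp at hx
  have ginj : Function.Injective g := by
    intro p q h
    have : φ (.inr p) = φ (.inr q) := by rw [hg, hg, h]
    exact Sum.inr_injective (φ.injective this)
  have gsurj : Function.Surjective g := by
    intro q
    obtain ⟨x, hx⟩ := φ.surjective (.inr q)
    rcases x with p | b
    · rw [hf] at hx
      simp at hx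
    · rw [hg] at hx
      exact ⟨b, Sum.inr_injective hx⟩
  have hm : ∀ p b, mem H (f p) (g b) ↔ mem G p b := by
    intro p b
    have := φ.map_adj_iff (v := .inl p) (w := .inr b)
    rw [hf, hg] at this
    exact this
  -- the two large blocks
  have hL : g (Lb V n) = Lb W n ∨ g (Lb V n) = Mb W n := by
    have := (big_LM (n := n) hV G).1.map φ
    rw [hg] at this
    exact big_block H _ this
  have hM : g (Mb V n) = Lb W n ∨ g (Mb V n) = Mb W n := by
    have := (big_LM (n := n) hV G).2.map φ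
    rw [hg] at this
    exact big_block H _ this
  have hLM : Lb V n ≠ Mb V n := by simp [Lb, Mb]
  have m0L : ∀ (U : Type) (K : SimpleGraph U), mem K (.inr 0) (Lb U n) := by
    intro U K
    exact (mem_0r K _).2 ⟨by simp, by simp⟩
  have m0M : ∀ (U : Type) (K : SimpleGraph U), ¬ mem K (.inr 0) (Mb U n) := by
    intro U K h
    exact ((mem_0r K _).1 h).1 rfl
  have m1L : ∀ (U : Type) (K : SimpleGraph U), ¬ mem K (.inr 1) (Lb U n) := by
    intro U K h
    have := (mem_1r K _).1 h
    simp at this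
  have m1M : ∀ (U : Type) (K : SimpleGraph U), ¬ mem K (.inr 1) (Mb U n) := by
    intro U K h
    have := (mem_1r K _).1 h
    simp at this
    omega
  have mvL : ∀ (U : Type) (K : SimpleGraph U) (v : U), mem K (.inl v) (Lb U n) :=
    fun U K v => Nat.zero_lt_two
  have mvM : ∀ (U : Type) (K : SimpleGraph U) (v : U), mem K (.inl v) (Mb U n) :=
    fun U K v => Nat.one_lt_two
  have two : ∀ i : Fin 2, i = 0 ∨ i = 1 := fun i => Fin.exists_fin_two.1 ⟨i, rfl⟩
  have hL' : g (Lb V n) = Lb W n := by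
    rcases hL with h | h
    · exact h
    · exfalso
      have h' : g (Mb V n) = Lb W n := by
        rcases hM with h' | h'
        · exact h'
        · exact absurd (ginj (h.trans h'.symm)) hLM
      have h1 : mem H (f (.inr 0)) (Mb W n) := by rw [← h, hm]; exact m0L V G
      have h2 : ¬ mem H (f (.inr 0)) (Lb W n) := by rw [← h', hm]; exact m0M V G
      rcases hq : f (.inr 0) with v | i
      · rw [hq] at h2; exact h2 (mvL W H v)
      · rw [hq] at h1
        rcases two i with rfl | rfl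
        · exact m0M W H h1
        · exact m1M W H h1
  have hM' : g (Mb V n) = Mb W n := by
    rcases hM with h | h
    · exact absurd (ginj (hL'.trans h.symm)) hLM
    · exact h
  have hv : ∀ v : V, ∃ w : W, f (.inl v) = .inl w := by
    intro v
    have h1 : mem H (f (.inl v)) (Mb W n) := by rw [← hM', hm]; exact mvM V G v
    rcases hq : f (.inl v) with w | i
    · exact ⟨w, rfl⟩
    · rw [hq] at h1
      rcases two i with rfl | rfl
      · exact absurd h1 (m0M W H)
      · exact absurd h1 (m1M W H)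
  have hi : ∀ i : Fin 2, ∃ j : Fin 2, f (.inr i) = .inr j := by
    intro i
    have h1 : ¬ mem H (f (.inr i)) (Mb W n) := by
      rw [← hM', hm]
      rcases two i with rfl | rfl
      · exact m0M V G
      · exact m1M V G
    rcases hq : f (.inr i) with w | j
    · rw [hq] at h1; exact absurd (mvM W H w) h1
    · exact ⟨j, rfl⟩
  have h0 : f (.inr 0) = .inr 0 := by
    obtain ⟨j, hj⟩ := hi 0
    have h1 : mem H (f (.inr 0)) (Lb W n) := by rw [← hL', hm]; exact m0L V G
    rw [hj] at h1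
    rcases two j with rfl | rfl
    · exact hj
    · exact absurd h1 (m1L W H)
  choose e he using hv
  have einj : Function.Injective e := by
    intro u w h
    have : f (.inl u) = f (.inl w) := by rw [he, he, h]
    exact Sum.inl_injective (finj this)
  have esurj : Function.Surjective e := by
    intro w
    obtain ⟨p, hp⟩ := fsurj (.inl w)
    rcases p with v | i
    · rw [he] at hp
      exact ⟨v, Sum.inl_injective hp⟩
    · obtain ⟨j, hj⟩ := hi i
      rw [hj] at hp
      simp at hp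
  refine ⟨⟨Equiv.ofBijective e ⟨einj, esurj⟩, ?_⟩⟩
  intro u w
  change H.Adj (e u) (e w) ↔ G.Adj u w
  by_cases huw : u = w
  · subst huw
    simp
  rw [adj_iff_block (n := n) G huw, adj_iff_block (n := n) H (fun h => huw (einj h))]
  constructor
  · rintro ⟨c, h1, h2, h3, h4⟩
    obtain ⟨b, rfl⟩ := gsurj c
    rw [← he, hm] at h2 h3
    rw [← h0, hm] at h4
    exact ⟨b, fun h => h1 (by rw [h, hL']), h2, h3, h4⟩
  · rintro ⟨b, h1, h2, h3, h4⟩
    refine ⟨g b, fun h => h1 (ginj (h.trans hL'.symm)), ?_, ?_, ?_⟩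
    · rw [← he, hm]; exact h2
    · rw [← he, hm]; exact h3
    · rw [← h0, hm]; exact h4

end Pool.Agent.Helper55.GI
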