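import Mathlib

/-!
# The characteristic polynomial of the split graph of a balanced incidence structure
-/

set_option autoImplicit false

namespace Pool.Agent.Helper55.GI

open Matrix Polynomial

variable {P B : Type} [Fintype P] [Fintype B] [DecidableEq P] [DecidableEq B]

/-- points form a clique, blocks are independent -/
def splitM (R : Type) [Ring R] (N : Matrix P B R) : Matrix (P ⊕ B) (P ⊕ B) R :=
  Matrix.fromBlocks (Matrix.of (fun _ _ => 1) - 1) N Nᵀ 0

/-- `det (a I + b J)` -/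
theorem det_IJ {K : Type} [Field K] (a b : K) (ha : a ≠ 0) :
    (a • (1 : Matrix P P K) + b • Matrix.of (fun _ _ => (1 : K))).det =
      a ^ Fintype.card P * (1 + Fintype.card P * (b / a)) := by
  have h1 : a • (1 : Matrix P P K) + b • Matrix.of (fun _ _ => (1 : K)) =
      a • (1 + Matrix.replicateCol Unit (fun _ : P => b / a) *
        Matrix.replicateRow Unit (fun _ : P => (1 : K))) := by
    ext i j
    simp only [Matrix.add_apply, Matrix.smul_apply, Matrix.of_apply, smul_eq_mul,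
      Matrix.mul_apply, Matrix.replicateCol_apply, Matrix.replicateRow_apply, Finset.univ_unique,
      Finset.sum_const, Finset.card_singleton, one_smul]
    field_simp
  rw [h1, Matrix.det_smul, Matrix.det_one_add_replicateCol_mul_replicateRow]
  congr 2
  simp [dotProduct, Finset.sum_const]

/-- The characteristic polynomial, at a point. -/
theorem det_splitM {K : Type} [Field K] (N : Matrix P B K) (r l : K)
    (hN : N * Nᵀ = (r - l) • (1 : Matrix P P K) + l • Matrix.of (fun _ _ => (1 : K)))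
    (x : K) (hx : x ≠ 0) (hy : x + 1 - (r - l) / x ≠ 0) :
    (x • (1 : Matrix (P ⊕ B) (P ⊕ B) K) - splitM K N).det =
      x ^ Fintype.card B * ((x + 1 - (r - l) / x) ^ Fintype.card P *
        (1 - Fintype.card P * ((1 + l / x) / (x + 1 - (r - l) / x)))) := by
  have h1 : x • (1 : Matrix (P ⊕ B) (P ⊕ B) K) - splitM K N =
      Matrix.fromBlocks ((x + 1) • (1 : Matrix P P K) - Matrix.of (fun _ _ => 1)) (-N) (-Nᵀ)
        (x • (1 : Matrix B B K)) := by
    unfold splitM
    rw [← Matrix.fromBlocks_one, Matrix.fromBlocks_smul, sub_eq_add_neg, Matrix.fromBlocks_neg,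
      Matrix.fromBlocks_add]
    congr 1
    · rw [add_smul, one_smul]; abel
    · simp
    · simp
    · simp
  letI : Invertible (x • (1 : Matrix B B K)) :=
    ⟨x⁻¹ • 1, by simp [smul_smul, hx], by simp [smul_smul, hx]⟩
  have h2 : ⅟(x • (1 : Matrix B B K)) = x⁻¹ • 1 := rfl
  rw [h1, Matrix.det_fromBlocks₂₂, h2]
  have h3 : (x + 1) • (1 : Matrix P P K) - Matrix.of (fun _ _ => 1) -
      -N * x⁻¹ • (1 : Matrix B B K) * -Nᵀ =
      (x + 1 - (r - l) / x) • (1 : Matrix P P K) + (-(1 + l / x)) •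
        Matrix.of (fun _ _ => (1 : K)) := by
    have h4 : -N * x⁻¹ • (1 : Matrix B B K) * -Nᵀ = x⁻¹ • (N * Nᵀ) := by
      simp
    rw [h4, hN]
    ext i j
    simp only [Matrix.sub_apply, Matrix.add_apply, Matrix.smul_apply, Matrix.of_apply, smul_eq_mul]
    field_simp
    ring
  rw [h3, det_IJ _ _ hy, Matrix.det_smul, Matrix.det_one, mul_one]
  congr 2
  rw [neg_div]
  ring

/-- **The characteristic polynomial.** Every point lies on `l ^ 2` blocks and two points lie on
`l` common blocks. -/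
theorem charpoly_splitM (N : Matrix P B ℝ) (l : ℕ) (hP : 1 ≤ Fintype.card P)
    (hB : Fintype.card P ≤ Fintype.card B)
    (hN : N * Nᵀ = ((l : ℝ) ^ 2 - l) • (1 : Matrix P P ℝ) + (l : ℝ) • Matrix.of (fun _ _ => 1)) :
    (splitM ℝ N).charpoly = X ^ (Fintype.card B - Fintype.card P) *
      (X + C (l : ℝ)) ^ Fintype.card P * (X - C ((l : ℝ) - 1)) ^ (Fintype.card P - 1) *
        (X - C ((l : ℝ) + Fintype.card P - 1)) := by
  refine Polynomial.eq_of_infinite_eval_eq _ _ ?_
  refine (Set.Ioi_infinite (l : ℝ)).mono ?_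
  intro x hx
  rw [Set.mem_Ioi] at hx
  have hl : (0 : ℝ) ≤ l := Nat.cast_nonneg l
  have hx0 : 0 < x := lt_of_le_of_lt hl hx
  have hx1 : x ≠ 0 := hx0.ne'
  have e1 : x + 1 - ((l : ℝ) ^ 2 - l) / x = (x + l) * (x - (l - 1)) / x := by
    field_simp
    ring
  have p1 : 0 < (x + l) * (x - (l - 1)) := by
    apply mul_pos <;> linarith
  have hy : x + 1 - ((l : ℝ) ^ 2 - l) / x ≠ 0 := by
    rw [e1]
    exact (div_pos p1 hx0).ne'
  have h1 := det_splitM N ((l : ℝ) ^ 2) l hN x hx1 hy
  rw [Set.mem_ofPred_eq, Matrix.eval_charpoly]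
  have h2 : (Matrix.scalar (P ⊕ B)) x - splitM ℝ N =
      x • (1 : Matrix (P ⊕ B) (P ⊕ B) ℝ) - splitM ℝ N := by
    rw [Matrix.smul_one_eq_diagonal]
    rfl
  rw [h2, h1, e1]
  obtain ⟨b, hb⟩ := Nat.exists_eq_add_of_le hB
  obtain ⟨v, hv⟩ := Nat.exists_eq_add_of_le hP
  rw [hb, Nat.add_sub_cancel_left, hv, Nat.add_sub_cancel_left]
  simp only [eval_mul, eval_pow, eval_X, eval_add, eval_C, eval_sub]
  have q1 : x + l ≠ 0 := by positivity
  have q2 : x - ((l : ℝ) - 1) ≠ 0 := by
    have : 0 < x - ((l : ℝ) - 1) := by linarith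
    exact this.ne'
  have q3 : 1 + (l : ℝ) / x = (x + l) / x := by field_simp
  rw [q3]
  push_cast
  rw [div_pow, mul_pow, pow_add x (1 + v) b, pow_add (x - ((l : ℝ) - 1)) 1 v]
  field_simp
  ring

end Pool.Agent.Helper55.GI
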